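import Pool.Agent.SHK.Defs

/-!
# The shadow inequality (SH) for (W)_s antichains and the one-point reduction

`Ws s F`: any two members satisfy `|X \ Y| ≤ s` or `|Y \ X| ≤ s`.
`sh s F`: the `s`-subsets of members.
(SH): an antichain with `Ws s`, all sizes `≥ s`, has `|F| ≤ |sh s F|`.
-/

set_option autoImplicit false

open Finset

namespace SHK

variable {α : Type*} [DecidableEq α]

/-- If two members agree after erasing `x` they are equal (antichain). -/
theorem erase_inj {F : Finset (Finset α)} (hF : AC F)
    {x : α} {X Y : Finset α} (hX : X ∈ F) (hY : Y ∈ F) (h : X.erase x = Y.erase x) : X = Y := by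
  by_contra hne
  by_cases hx : x ∈ X
  · by_cases hy : x ∈ Y
    · apply hne
      rw [← insert_erase hx, ← insert_erase hy, h]
    · have : Y ⊆ X := by
        rw [erase_eq_of_notMem hy] at h
        rw [← h]; exact erase_subset _ _
      exact hF hY hX (Ne.symm hne) this
  · have : X ⊆ Y := by
      rw [erase_eq_of_notMem hx] at h
      rw [h]; exact erase_subset _ _
    exact hF hX hY hne this

theorem er_card {F C : Finset (Finset α)} (hF : AC F)
    (x : α) : (er x (F \ C)).card = (F \ C).card := by
  apply card_image_of_injOn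
  intro X hX Y hY h
  have hX' : X ∈ F := (mem_sdiff.1 hX).1
  have hY' : Y ∈ F := (mem_sdiff.1 hY).1
  exact erase_inj hF hX' hY' h

theorem er_antichain {F C : Finset (Finset α)}
    (hF : AC F) {x : α} (hC : Cover x F C) :
    AC (er x (F \ C)) := by
  intro A hA B hB hne hsub
  simp only [er, coe_image, Set.mem_image, mem_coe, mem_sdiff] at hA hB
  obtain ⟨X, ⟨hX, hXC⟩, rfl⟩ := hA
  obtain ⟨Y, ⟨hY, hYC⟩, rfl⟩ := hB
  have hXY : X ≠ Y := by rintro rfl; exact hne rfl
  have hnot : ¬ X ⊆ Y := hF hX hY hXY
  have hsubx : X \ Y ⊆ {x} := by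
    intro z hz
    rw [mem_sdiff] at hz
    by_contra hzx
    rw [mem_singleton] at hzx
    exact hz.2 (mem_of_mem_erase (hsub (mem_erase.2 ⟨hzx, hz.1⟩)))
  have hne' : (X \ Y).Nonempty := by
    rw [nonempty_iff_ne_empty, Ne, sdiff_eq_empty_iff_subset]; exact hnot
  have : X \ Y = {x} := by
    rcases subset_singleton_iff.1 hsubx with h | h
    · exact absurd h (nonempty_iff_ne_empty.1 hne')
    · exact h
  exact hC X hX Y hY hXC hYC this

theorem er_Ws {s : ℕ} {F : Finset (Finset α)} (hW : Ws s F) (x : α) : Ws s (er x F) := by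
  intro A hA B hB
  simp only [er, mem_image] at hA hB
  obtain ⟨X, hX, rfl⟩ := hA
  obtain ⟨Y, hY, rfl⟩ := hB
  have key : ∀ P Q : Finset α, (P.erase x \ Q.erase x).card ≤ (P \ Q).card := by
    intro P Q
    apply card_le_card
    intro z hz
    simp only [mem_sdiff, mem_erase, not_and] at hz ⊢
    exact ⟨hz.1.2, fun h => hz.2 hz.1.1 h⟩
  rcases hW X hX Y hY with h | h
  · exact Or.inl ((key X Y).trans h)
  · exact Or.inr ((key Y X).trans h)

/-- the hypothesis: a covered point with a small cover, for families with all sizes `> s` -/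
def Leader (s : ℕ) (F : Finset (Finset α)) : Prop :=
  ∃ x ∈ supp F, ∃ C ⊆ F, C.card ≤ kx s x F ∧ Cover x F C

/-- splitting off the members of size `s` -/
theorem split_level {s : ℕ} {F : Finset (Finset α)}
    (hF : AC F) (hs : ∀ X ∈ F, s ≤ X.card)
    (h : (F.filter fun X => s < X.card).card ≤ (sh s (F.filter fun X => s < X.card)).card) :
    F.card ≤ (sh s F).card := by
  set T := F.filter fun X => s < X.card with hT
  set L := F.filter fun X => ¬ s < X.card with hL
  have hcard : F.card = T.card + L.card := (card_filter_add_card_filter_not _).symm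
  have hLs : ∀ X ∈ L, X.card = s := fun X hX => by
    rw [hL, mem_filter] at hX
    have := hs X hX.1
    omega
  have hsub : sh s T ∪ L ⊆ sh s F := by
    intro S hS
    rcases mem_union.1 hS with h1 | h1
    · exact sh_mono (filter_subset _ _) h1
    · rw [mem_sh]
      exact ⟨S, (mem_filter.1 h1).1, Subset.refl _, hLs S h1⟩
  have hdis : Disjoint (sh s T) L := by
    rw [disjoint_left]
    intro S hS hSL
    obtain ⟨X, hX, hSX, hSc⟩ := mem_sh.1 hS
    have hXF : X ∈ F := (mem_filter.1 hX).1
    have hXs : s < X.card := (mem_filter.1 hX).2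
    have hSF : S ∈ F := (mem_filter.1 hSL).1
    have hne : S ≠ X := by rintro rfl; omega
    exact hF hSF hXF hne hSX
  calc F.card = T.card + L.card := hcard
    _ ≤ (sh s T).card + L.card := by omega
    _ = (sh s T ∪ L).card := (card_union_of_disjoint hdis).symm
    _ ≤ (sh s F).card := card_le_card hsub

theorem ws_zero {F : Finset (Finset α)} (hW : Ws 0 F)
    (hF : AC F) : F.card ≤ 1 := by
  rw [card_le_one]
  intro X hX Y hY
  by_contra hne
  rcases hW X hX Y hY with h | h
  · have : X \ Y = ∅ := by rw [← card_eq_zero]; omega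
    exact hF hX hY hne (sdiff_eq_empty_iff_subset.1 this)
  · have : Y \ X = ∅ := by rw [← card_eq_zero]; omega
    exact hF hY hX (Ne.symm hne) (sdiff_eq_empty_iff_subset.1 this)

theorem sh_card_split (s : ℕ) (x : α) (F : Finset (Finset α)) :
    (sh s F).card = kx s x F + ((sh s F).filter fun S => ¬ x ∈ S).card := by
  rw [kx]; exact (card_filter_add_card_filter_not _).symm

/-- one step -/
theorem step {s : ℕ} {F C : Finset (Finset α)} {x : α}
    (hF : AC F) (hC : Cover x F C) (hCF : C ⊆ F)
    (hk : C.card ≤ kx s x F)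
    (ih : (er x (F \ C)).card ≤ (sh s (er x (F \ C))).card) :
    F.card ≤ (sh s F).card := by
  have h1 : (sh s (er x (F \ C))) ⊆ (sh s F).filter fun S => ¬ x ∈ S := by
    intro S hS
    obtain ⟨A, hA, hSA, hSc⟩ := mem_sh.1 hS
    simp only [er, mem_image, mem_sdiff] at hA
    obtain ⟨X, ⟨hX, -⟩, rfl⟩ := hA
    rw [mem_filter, mem_sh]
    refine ⟨⟨X, hX, hSA.trans (erase_subset _ _), hSc⟩, fun hx => ?_⟩
    exact (notMem_erase x X) (hSA hx)
  have h2 := card_le_card h1
  have h3 := er_card (C := C) hF x
  have h4 : (F \ C).card + C.card = F.card := card_sdiff_add_card_eq_card hCF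
  have h5 := sh_card_split s x F
  omega

/-- MAIN REDUCTION: if every nonempty `(W)_s` antichain with all sizes `> s`, `s ≥ 1`, which
violates (SH) has a leader in the weak sense, then (SH). -/
theorem sh_of_leader
    (H : ∀ (s : ℕ) (F : Finset (Finset α)), 1 ≤ s → Ws s F →
      AC F → F.Nonempty → (∀ X ∈ F, s < X.card) →
      (sh s F).card < F.card → Leader s F) : SH α := by
  intro s F
  induction hm : (supp F).card using Nat.strong_induction_on generalizing F with
  | _ m ih =>
    intro hW hF hs
    apply split_level hF hs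
    set T := F.filter fun X => s < X.card with hT
    have hTW : Ws s T := hW.mono (filter_subset _ _)
    have hTF : AC T :=
      hF.subset (by exact_mod_cast filter_subset _ _)
    have hTs : ∀ X ∈ T, s < X.card := fun X hX => (mem_filter.1 hX).2
    rcases T.eq_empty_or_nonempty with hT0 | hTn
    · rw [hT0]; simp
    rcases Nat.eq_zero_or_pos s with hs0 | hs1
    · subst hs0
      refine (ws_zero hTW hTF).trans ?_
      rw [Nat.succ_le_iff, card_pos]
      obtain ⟨X, hX⟩ := hTn
      exact ⟨∅, mem_sh.2 ⟨X, hX, empty_subset _, rfl⟩⟩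
    by_contra hlt
    push Not at hlt
    obtain ⟨x, hx, C, hCT, hCk, hC⟩ := H s T hs1 hTW hTF hTn hTs hlt
    have hsupp : (supp (er x (T \ C))).card < m := by
      rw [← hm]
      apply card_lt_card
      rw [ssubset_iff_of_subset]
      · refine ⟨x, ?_, ?_⟩
        · obtain ⟨X, hX, hxX⟩ := mem_supp.1 hx
          exact mem_supp.2 ⟨X, (mem_filter.1 hX).1, hxX⟩
        · intro h
          obtain ⟨A, hA, hxA⟩ := mem_supp.1 h
          simp only [er, mem_image] at hA
          obtain ⟨X, -, rfl⟩ := hA
          exact notMem_erase x X hxA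
      · intro z hz
        obtain ⟨A, hA, hzA⟩ := mem_supp.1 hz
        simp only [er, mem_image, mem_sdiff] at hA
        obtain ⟨X, ⟨hX, -⟩, rfl⟩ := hA
        exact mem_supp.2 ⟨X, (mem_filter.1 hX).1, mem_of_mem_erase hzA⟩
    have h := ih _ hsupp (er x (T \ C)) rfl
      (er_Ws (hTW.mono sdiff_subset) x) (er_antichain hTF hC) ?_
    · exact absurd (step hTF hC hCT hCk h) (by omega)
    · intro A hA
      simp only [er, mem_image, mem_sdiff] at hA
      obtain ⟨X, ⟨hX, -⟩, rfl⟩ := hA
      have := hTs X hX
      have := pred_card_le_card_erase (s := X) (a := x)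
      omega

end SHK
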