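import Pool.Agent.SHK.ZLemma

/-!
# (CLEAN) ⟹ (SH) ⟹ S12353; (DEC00) ⟹ (CLEAN); (THR00) ⟹ (CLEAN)

`CleanW s G w`: for distinct members with `w X ≤ w X'`: `|X \ X'| ≤ s`,
`|X' \ X| ≤ s + (w X' - w X)`, and `w X' - w X < |X' \ X|` if `X ⊆ X'`.
`CLEAN`: then `|G| ≤ Vs s y = ∑_{i ≤ s} C(y,i)`.
-/

set_option autoImplicit false

open Finset

namespace SHK

variable {α : Type*} [DecidableEq α]

/-- the weighted condition -/
def CleanW (s : ℕ) (G : Finset (Finset α)) (w : Finset α → ℤ) : Prop :=
  ∀ X ∈ G, ∀ X' ∈ G, X ≠ X' → w X ≤ w X' →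
    (X \ X').card ≤ s ∧ ((X' \ X).card : ℤ) ≤ s + (w X' - w X) ∧
      (X ⊆ X' → w X' - w X < ((X' \ X).card : ℤ))

/-- `∑_{i ≤ s} C(y,i)` -/
def Vs (s y : ℕ) : ℕ := ∑ i ∈ range (s + 1), y.choose i

/-- CLEAN -/
def CLEAN (α : Type*) [DecidableEq α] : Prop :=
  ∀ (Y : Finset α) (s : ℕ) (G : Finset (Finset α)) (w : Finset α → ℤ), On Y G → CleanW s G w →
    G.card ≤ Vs s Y.card

theorem Vs_zero_right (s : ℕ) : Vs s 0 = 1 := by
  unfold Vs
  rw [sum_range_succ']
  simp

theorem Vs_zero_left (y : ℕ) : Vs 0 y = 1 := by simp [Vs]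

theorem Vs_succ (s y : ℕ) : Vs (s + 1) (y + 1) = Vs (s + 1) y + Vs s y := by
  unfold Vs
  rw [sum_range_succ' _ (s + 1), sum_range_succ' (fun i => y.choose i) (s + 1)]
  have h : ∀ i ∈ range (s + 1), (y + 1).choose (i + 1) = y.choose i + y.choose (i + 1) :=
    fun i _ => Nat.choose_succ_succ y i
  rw [sum_congr rfl h, sum_add_distrib]
  simp only [Nat.choose_zero_right]
  ring

/-- the sets of size `< s` inside `V` -/
def low (V : Finset α) (s : ℕ) : Finset (Finset α) := V.powerset.filter fun A => A.card < s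

theorem card_low (V : Finset α) (s : ℕ) :
    (low V s).card = ∑ i ∈ range s, V.card.choose i := by
  have h : low V s = (range s).biUnion fun i => V.powersetCard i := by
    ext A
    simp only [low, mem_filter, mem_powerset, mem_biUnion, mem_range, mem_powersetCard]
    constructor
    · rintro ⟨h1, h2⟩; exact ⟨_, h2, h1, rfl⟩
    · rintro ⟨i, hi, h1, h2⟩; exact ⟨h1, by omega⟩
  rw [h, card_biUnion]
  · exact sum_congr rfl fun i _ => by rw [card_powersetCard]
  · intro i _ j _ hij
    exact pairwise_disjoint_powersetCard V hij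

/-- families with all sizes `≥ s` -/
theorem card_le_of_clean (H : CLEAN α) {V : Finset α} {s : ℕ} {F : Finset (Finset α)}
    (hV : On V F) (hW : Ws s F) (hF : AC F) (hs : ∀ X ∈ F, s ≤ X.card) :
    F.card ≤ V.card.choose s := by
  classical
  set w : Finset α → ℤ := fun X => if X.card < s then (s : ℤ) else X.card with hw
  have hwF : ∀ X ∈ F, w X = X.card := fun X hX => by
    have := hs X hX
    simp only [hw]
    rw [if_neg (by omega)]
  have hwL : ∀ X ∈ low V s, w X = s := fun X hX => by
    simp only [hw]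
    rw [if_pos (mem_filter.1 hX).2]
  have hdis : Disjoint F (low V s) := by
    rw [disjoint_left]
    intro X hX hXL
    have := hs X hX
    have := (mem_filter.1 hXL).2
    omega
  have key := H V s (F ∪ low V s) w ?_ ?_
  · rw [card_union_of_disjoint hdis, card_low, Vs, sum_range_succ] at key
    omega
  · intro X hX
    rcases mem_union.1 hX with h | h
    · exact hV X h
    · exact mem_powerset.1 (mem_filter.1 h).1
  · intro X hX X' hX' hne hle
    have c1 : (X \ X').card + (X ∩ X').card = X.card := card_sdiff_add_card_inter X X'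
    have c2 : (X' \ X).card + (X' ∩ X).card = X'.card := card_sdiff_add_card_inter X' X
    have c3 : (X' ∩ X).card = (X ∩ X').card := by rw [inter_comm]
    rcases mem_union.1 hX with h | h <;> rcases mem_union.1 hX' with h' | h'
    · -- both in `F`
      rw [hwF X h, hwF X' h'] at hle ⊢
      have hle' : X.card ≤ X'.card := by exact_mod_cast hle
      have h1 : (X \ X').card ≤ s := by
        rcases hW X h X' h' with h1 | h1 <;> omega
      refine ⟨h1, ?_, fun hsub => absurd hsub (hF h h' hne)⟩
      omega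
    · -- `X ∈ F`, `X'` small: then `X` has size `s`
      have hX's := (mem_filter.1 h').2
      have hXs := hs X h
      rw [hwF X h, hwL X' h'] at hle ⊢
      have hle' : X.card ≤ s := by exact_mod_cast hle
      refine ⟨by omega, by omega, fun hsub => ?_⟩
      have := card_le_card hsub
      omega
    · -- `X` small, `X' ∈ F`
      have hXs := (mem_filter.1 h).2
      have hX's := hs X' h'
      rw [hwL X h, hwF X' h'] at hle ⊢
      refine ⟨by omega, by omega, fun hsub => ?_⟩
      omega
    · -- both small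
      have hXs := (mem_filter.1 h).2
      have hX's := (mem_filter.1 h').2
      rw [hwL X h, hwL X' h'] at hle ⊢
      refine ⟨by omega, by omega, fun hsub => ?_⟩
      have h1 : X ≠ X' := hne
      have h2 : X.card < X'.card := card_lt_card (hsub.ssubset_of_ne h1)
      omega

theorem shon_of_clean (H : CLEAN α) (V : Finset α) (s : ℕ) : SHon V s := by
  intro F hV hW hF hs
  apply split_level hF hs
  set T := F.filter fun X => s < X.card with hT
  set L := V.powersetCard s \ sh s T with hL
  have hTV : On V T := fun X hX => hV X (mem_filter.1 hX).1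
  have hTs : ∀ X ∈ T, s < X.card := fun X hX => (mem_filter.1 hX).2
  have hTF : AC T := hF.mono (filter_subset _ _)
  have hLs : ∀ S ∈ L, S.card = s := fun S hS => (mem_powersetCard.1 (mem_sdiff.1 hS).1).2
  have hdis : Disjoint T L := by
    rw [disjoint_left]
    intro X hX hXL
    have := hTs X hX
    have := hLs X hXL
    omega
  have h1 := card_le_of_clean H (V := V) (s := s) (F := T ∪ L) ?_ ?_ ?_ ?_
  · rw [card_union_of_disjoint hdis, hL, card_sdiff_of_subset (sh_subset hTV),
      card_powersetCard] at h1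
    have h2 := card_le_card (sh_subset (s := s) hTV)
    rw [card_powersetCard] at h2
    omega
  · intro X hX
    rcases mem_union.1 hX with h | h
    · exact hTV X h
    · exact (mem_powersetCard.1 (mem_sdiff.1 h).1).1
  · intro X hX Y hY
    rcases mem_union.1 hX with hX | hX
    · rcases mem_union.1 hY with hY | hY
      · exact (hW.mono (filter_subset _ _)) X hX Y hY
      · right
        exact (card_le_card sdiff_subset).trans (hLs Y hY).le
    · left
      exact (card_le_card sdiff_subset).trans (hLs X hX).le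
  · intro X hX Y hY hne hsub
    rcases mem_union.1 hX with hX | hX
    · rcases mem_union.1 hY with hY | hY
      · exact hTF hX hY hne hsub
      · have := card_le_card hsub
        have := hTs X hX
        have := hLs Y hY
        omega
    · rcases mem_union.1 hY with hY | hY
      · exact (mem_sdiff.1 hX).2 (mem_sh.2 ⟨Y, hY, hsub, hLs X hX⟩)
      · exact hne (eq_of_subset_of_card_le hsub (by rw [hLs X hX, hLs Y hY]))
  · intro X hX
    rcases mem_union.1 hX with h | h
    · exact (hTs X h).le
    · exact (hLs X h).ge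

theorem sh_of_clean (H : CLEAN α) : SH α :=
  fun s F hW hF hs => shon_of_clean H (supp F) s F (fun _ hX _ hz => mem_supp.2 ⟨_, hX, hz⟩) hW hF hs

/-- (CLEAN) on `Fin n` gives the frozen statement S12353 (both parities). -/
theorem frozen_of_clean (H : ∀ n : ℕ, CLEAN (Fin n)) :
    ∀ n k : ℕ, 1 ≤ k → k ≤ n →
      ∀ F : Finset (Finset (Fin n)),
        IsAntichain (· ⊆ ·) (F : Set (Finset (Fin n))) →
        (∀ A ∈ F, ∀ B ∈ F, (symmDiff A B).card ≤ n - k) →
        F.card ≤ n.choose ((n + k + 1) / 2) :=
  frozen_of_sh fun n => sh_of_clean (H n)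

/-- one step of the induction: split `|G|` into a `W_s` part and a `W_(s-1)` part, or a `W_s` part
and at most `Vs (s-1) (y-1)` further members -/
def StepC (α : Type*) [DecidableEq α] : Prop :=
  ∀ (Y : Finset α) (s : ℕ) (G : Finset (Finset α)) (w : Finset α → ℤ), Y.Nonempty →
    On Y G → CleanW (s + 1) G w →
    ∃ b ∈ Y, ∃ (A : Finset (Finset α)) (wA : Finset α → ℤ), On (Y.erase b) A ∧
      CleanW (s + 1) A wA ∧
      (G.card ≤ A.card + Vs s (Y.erase b).card ∨
        ∃ (B : Finset (Finset α)) (wB : Finset α → ℤ), On (Y.erase b) B ∧ CleanW s B wB ∧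
          G.card ≤ A.card + B.card)

theorem clean_zero {G : Finset (Finset α)} {w : Finset α → ℤ} (h : CleanW 0 G w) :
    G.card ≤ 1 := by
  rw [card_le_one]
  intro X hX X' hX'
  by_contra hne
  rcases le_total (w X) (w X') with hle | hle
  · obtain ⟨h1, h2, h3⟩ := h X hX X' hX' hne hle
    have h4 : X \ X' = ∅ := by rw [← card_eq_zero]; omega
    have h5 := h3 (sdiff_eq_empty_iff_subset.1 h4)
    simp only [Nat.cast_zero, zero_add] at h2
    omega
  · obtain ⟨h1, h2, h3⟩ := h X' hX' X hX (Ne.symm hne) hle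
    have h4 : X' \ X = ∅ := by rw [← card_eq_zero]; omega
    have h5 := h3 (sdiff_eq_empty_iff_subset.1 h4)
    simp only [Nat.cast_zero, zero_add] at h2
    omega

theorem clean_of_step (H : StepC α) : CLEAN α := by
  suffices key : ∀ (y s : ℕ) (Y : Finset α) (G : Finset (Finset α)) (w : Finset α → ℤ),
      Y.card = y → On Y G → CleanW s G w → G.card ≤ Vs s y from
    fun Y s G w hY hG => key Y.card s Y G w rfl hY hG
  intro y
  induction y with
  | zero =>
    intro s Y G w hy hY _
    rw [card_eq_zero] at hy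
    rw [Vs_zero_right]
    have : G ⊆ {∅} := by
      intro X hX
      have h := hY X hX
      rw [hy, subset_empty] at h
      rw [h, mem_singleton]
    simpa using card_le_card this
  | succ y ih =>
    intro s Y G w hy hY hG
    rcases s with _ | s
    · rw [Vs_zero_left]
      exact clean_zero hG
    · have hne : Y.Nonempty := card_pos.1 (by omega)
      obtain ⟨b, hb, A, wA, hA, hAc, h⟩ := H Y s G w hne hY hG
      have hc : (Y.erase b).card = y := by rw [card_erase_of_mem hb]; omega
      have h1 := ih (s + 1) _ A wA hc hA hAc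
      rw [Vs_succ]
      rcases h with h | ⟨B, wB, hB, hBc, h⟩
      · rw [hc] at h
        omega
      · have h2 := ih s _ B wB hc hB hBc
        omega

/-- the members which disagree with the step function `(b, r)` -/
def Bad (b : α) (r : ℤ) (G : Finset (Finset α)) (w : Finset α → ℤ) : Finset (Finset α) :=
  G.filter fun X => (b ∈ X ∧ w X ≤ r) ∨ (b ∉ X ∧ r < w X)

/-- (THR00) -/
def THR00 (α : Type*) [DecidableEq α] : Prop :=
  ∀ (Y : Finset α) (s : ℕ) (G : Finset (Finset α)) (w : Finset α → ℤ), Y.Nonempty →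
    On Y G → CleanW (s + 1) G w →
    ∃ b ∈ Y, ∃ (w' : Finset α → ℤ) (r : ℤ), CleanW (s + 1) G w' ∧
      (Bad b r G w').card ≤ Vs s (Y.card - 1)

/-- the threshold step is always legal -/
theorem threshold {Y : Finset α} {s : ℕ} {G : Finset (Finset α)} {w : Finset α → ℤ}
    (hY : On Y G) (hG : CleanW s G w) (b : α) (r : ℤ) :
    ∃ (A : Finset (Finset α)) (wA : Finset α → ℤ), On (Y.erase b) A ∧ CleanW s A wA ∧
      G.card = A.card + (Bad b r G w).card := by
  classical
  -- the good members and the trace map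
  set L := G.filter fun X => b ∉ X ∧ w X ≤ r with hL
  set U := G.filter fun X => b ∈ X ∧ r < w X with hU
  set U' := U.image fun X => X.erase b with hU'
  have mL : ∀ X, X ∈ L ↔ X ∈ G ∧ b ∉ X ∧ w X ≤ r := fun X => by simp [hL]
  have mU : ∀ P, P ∈ U' ↔ b ∉ P ∧ insert b P ∈ G ∧ r < w (insert b P) := by
    intro P
    simp only [hU', hU, mem_image, mem_filter]
    constructor
    · rintro ⟨X, ⟨h1, h2, h3⟩, rfl⟩
      exact ⟨notMem_erase b X, by rwa [insert_erase h2], by rwa [insert_erase h2]⟩
    · rintro ⟨h1, h2, h3⟩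
      exact ⟨insert b P, ⟨h2, mem_insert_self b P, h3⟩, erase_insert h1⟩
  -- light member `Q` against heavy member `P + b`
  have cross : ∀ Q ∈ L, ∀ P ∈ U', w Q ≤ w (insert b P) - 1 ∧ (Q \ P).card ≤ s ∧
      ((P \ Q).card : ℤ) ≤ s + (w (insert b P) - 1 - w Q) ∧
      (Q ⊆ P → w (insert b P) - 1 - w Q < ((P \ Q).card : ℤ)) := by
    intro Q hQ P hP
    obtain ⟨q1, q2, q3⟩ := (mL Q).1 hQ
    obtain ⟨p1, p2, p3⟩ := (mU P).1 hP
    have hne : Q ≠ insert b P := by rintro rfl; exact q2 (mem_insert_self b P)
    obtain ⟨h1, h2, h3⟩ := hG Q q1 (insert b P) p2 hne (by omega)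
    have e1 : Q \ insert b P = Q \ P := by
      ext z
      simp only [mem_sdiff, mem_insert, not_or]
      constructor
      · rintro ⟨hz, _, hzP⟩; exact ⟨hz, hzP⟩
      · rintro ⟨hz, hzP⟩; exact ⟨hz, fun h => q2 (h ▸ hz), hzP⟩
    have e2 : insert b P \ Q = insert b (P \ Q) := insert_sdiff_of_notMem _ q2
    have e3 : (insert b P \ Q).card = (P \ Q).card + 1 := by
      rw [e2, card_insert_of_notMem]
      exact fun h => p1 (mem_sdiff.1 h).1
    rw [e1] at h1
    rw [e3] at h2 h3
    push_cast at h2 h3
    refine ⟨by omega, h1, by omega, fun hsub => ?_⟩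
    have := h3 (hsub.trans (subset_insert b P))
    omega
  -- equality of a light and a heavy trace is impossible
  have hdis : Disjoint L U' := by
    rw [disjoint_left]
    intro Q hQ hQU
    obtain ⟨h1, _, _, h4⟩ := cross Q hQ Q hQU
    have h5 := h4 (Subset.refl Q)
    have h6 : (Q \ Q).card = 0 := by simp
    rw [h6] at h5
    push_cast at h5
    omega
  set wA : Finset α → ℤ := fun X => if X ∈ L then w X else w (insert b X) - 1 with hwA
  have wL : ∀ X ∈ L, wA X = w X := fun X hX => by simp only [hwA]; rw [if_pos hX]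
  have wU : ∀ X ∈ U', wA X = w (insert b X) - 1 := fun X hX => by
    simp only [hwA]; rw [if_neg (fun h => disjoint_left.1 hdis h hX)]
  refine ⟨L ∪ U', wA, ?_, ?_, ?_⟩
  · intro X hX z hz
    rw [mem_erase]
    rcases mem_union.1 hX with h | h
    · obtain ⟨h1, h2, h3⟩ := (mL X).1 h
      exact ⟨fun e => h2 (e ▸ hz), hY X h1 hz⟩
    · obtain ⟨h1, h2, h3⟩ := (mU X).1 h
      exact ⟨fun e => h1 (e ▸ hz), hY _ h2 (mem_insert_of_mem hz)⟩
  · intro X hX X' hX' hne hle
    rcases mem_union.1 hX with h | h <;> rcases mem_union.1 hX' with h' | h'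
    · rw [wL X h, wL X' h'] at hle ⊢
      exact hG X ((mL X).1 h).1 X' ((mL X').1 h').1 hne hle
    · rw [wL X h, wU X' h'] at hle ⊢
      obtain ⟨_, h2, h3, h4⟩ := cross X h X' h'
      exact ⟨h2, h3, h4⟩
    · rw [wU X h, wL X' h'] at hle ⊢
      obtain ⟨h1, h2, h3, h4⟩ := cross X' h' X h
      have heq : w (insert b X) - 1 = w X' := by omega
      rw [heq] at h3 h4
      refine ⟨?_, ?_, fun hsub => ?_⟩
      · omega
      · rw [heq]
        omega
      · rw [heq]
        have h5 : (X' \ X).Nonempty := by
          rw [nonempty_iff_ne_empty, Ne, sdiff_eq_empty_iff_subset]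
          exact fun h => hne (Subset.antisymm hsub h)
        have := card_pos.2 h5
        omega
    · rw [wU X h, wU X' h'] at hle ⊢
      obtain ⟨p1, p2, p3⟩ := (mU X).1 h
      obtain ⟨q1, q2, q3⟩ := (mU X').1 h'
      have hne' : insert b X ≠ insert b X' := by
        intro e
        apply hne
        rw [← erase_insert p1, ← erase_insert q1, e]
      obtain ⟨h1, h2, h3⟩ := hG _ p2 _ q2 hne' (by omega)
      have e1 : insert b X \ insert b X' = X \ X' := by
        ext z
        simp only [mem_sdiff, mem_insert, not_or]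
        constructor
        · rintro ⟨hz | hz, hzb, hzX⟩
          · exact absurd hz hzb
          · exact ⟨hz, hzX⟩
        · rintro ⟨hz, hzX⟩
          exact ⟨Or.inr hz, fun e => p1 (e ▸ hz), hzX⟩
      have e2 : insert b X' \ insert b X = X' \ X := by
        ext z
        simp only [mem_sdiff, mem_insert, not_or]
        constructor
        · rintro ⟨hz | hz, hzb, hzX⟩
          · exact absurd hz hzb
          · exact ⟨hz, hzX⟩
        · rintro ⟨hz, hzX⟩
          exact ⟨Or.inr hz, fun e => q1 (e ▸ hz), hzX⟩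
      rw [e1] at h1
      rw [e2] at h2 h3
      refine ⟨h1, by omega, fun hsub => ?_⟩
      have := h3 (insert_subset_insert b hsub)
      omega
  · rw [card_union_of_disjoint hdis]
    have hUc : U'.card = U.card := by
      apply card_image_of_injOn
      intro X hX X' hX' h
      have hx := (mem_filter.1 (mem_coe.1 hX)).2.1
      have hx' := (mem_filter.1 (mem_coe.1 hX')).2.1
      have h6 : insert b (X.erase b) = insert b (X'.erase b) := congrArg (insert b) h
      rwa [insert_erase hx, insert_erase hx'] at h6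
    have h1 : L.card + U.card = (G.filter fun X => ¬ ((b ∈ X ∧ w X ≤ r) ∨ (b ∉ X ∧ r < w X))).card := by
      rw [← card_union_of_disjoint]
      · congr 1
        ext X
        simp only [hL, hU, mem_union, mem_filter, not_or, not_and, not_le, not_lt]
        constructor
        · rintro (⟨h1, h2, h3⟩ | ⟨h1, h2, h3⟩)
          · exact ⟨h1, fun h => absurd h h2, fun _ => h3⟩
          · exact ⟨h1, fun _ => h3, fun h => absurd h2 h⟩
        · rintro ⟨h1, h2, h3⟩
          by_cases hb : b ∈ X
          · exact Or.inr ⟨h1, hb, h2 hb⟩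
          · exact Or.inl ⟨h1, hb, h3 hb⟩
      · rw [disjoint_left]
        intro X hX hX'
        exact (mem_filter.1 hX).2.1 (mem_filter.1 hX').2.1
    rw [hUc, h1, Bad, add_comm]
    exact (card_filter_add_card_filter_not _).symm

theorem step_of_thr (H : THR00 α) : StepC α := by
  intro Y s G w hne hY hG
  obtain ⟨b, hb, w', r, hw', hB⟩ := H Y s G w hne hY hG
  obtain ⟨A, wA, hA, hAc, hcard⟩ := threshold hY hw' b r
  refine ⟨b, hb, A, wA, hA, hAc, Or.inl ?_⟩
  rw [card_erase_of_mem hb]
  omega

theorem clean_of_thr (H : THR00 α) : CLEAN α := clean_of_step (step_of_thr H)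

/-- (THR00) on `Fin n` gives the frozen statement S12353 (both parities). -/
theorem frozen_of_thr (H : ∀ n : ℕ, THR00 (Fin n)) :
    ∀ n k : ℕ, 1 ≤ k → k ≤ n →
      ∀ F : Finset (Finset (Fin n)),
        IsAntichain (· ⊆ ·) (F : Set (Finset (Fin n))) →
        (∀ A ∈ F, ∀ B ∈ F, (symmDiff A B).card ≤ n - k) →
        F.card ≤ n.choose ((n + k + 1) / 2) :=
  frozen_of_clean fun n => clean_of_thr (H n)

end SHK
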