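import Pool.Agent.SHK.LymV

/-!
# The explicit tight families `F(w)` and what is compatible with them
-/

set_option autoImplicit false

open Finset

namespace SHK

variable {α : Type*} [DecidableEq α]

/-- the explicit tight families (`low` = letter L, `high` = letter H) -/
inductive Cls (s : ℕ) : Finset α → Finset (Finset α) → Prop
  | base (V : Finset α) (h : V.card = 2 * s) : Cls s V (V.powersetCard s)
  | low (V : Finset α) (T : Finset (Finset α)) (z : α) (hz : z ∉ V) (h : Cls s V T) :
      Cls s (insert z V) (T ∪ (V.powersetCard (s - 1)).image (insert z))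
  | high (V : Finset α) (T : Finset (Finset α)) (z : α) (hz : z ∉ V) (h : Cls s V T) :
      Cls s (insert z V) (T.image (insert z) ∪ V.powersetCard (V.card + 1 - s))

variable {s : ℕ} {V : Finset α} {T : Finset (Finset α)}

theorem Cls.two_le (h : Cls s V T) : 2 * s ≤ V.card := by
  induction h with
  | base V h => omega
  | low V T z hz h ih => rw [card_insert_of_notMem hz]; omega
  | high V T z hz h ih => rw [card_insert_of_notMem hz]; omega

theorem Cls.on (h : Cls s V T) : On V T := by
  induction h with
  | base V h => exact fun X hX => (mem_powersetCard.1 hX).1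
  | low V T z hz h ih =>
    intro X hX
    rcases mem_union.1 hX with h1 | h1
    · exact (ih X h1).trans (subset_insert z V)
    · obtain ⟨S, hS, rfl⟩ := mem_image.1 h1
      exact insert_subset_insert z (mem_powersetCard.1 hS).1
  | high V T z hz h ih =>
    intro X hX
    rcases mem_union.1 hX with h1 | h1
    · obtain ⟨S, hS, rfl⟩ := mem_image.1 h1
      exact insert_subset_insert z (ih S hS)
    · exact (mem_powersetCard.1 h1).1.trans (subset_insert z V)

theorem card_insert_sdiff {V X : Finset α} {z : α} (hz : z ∉ V) (hzX : z ∉ X) :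
    (insert z V \ X).card = (V \ X).card + 1 := by
  rw [insert_sdiff_of_notMem _ hzX, card_insert_of_notMem]
  exact fun h => hz (mem_sdiff.1 h).1

theorem insert_sdiff_insert' {V X : Finset α} {z : α} (hz : z ∉ V) :
    insert z V \ insert z X = V \ X := by
  ext a
  simp only [mem_sdiff, mem_insert, not_or]
  constructor
  · rintro ⟨h1 | h1, h2, h3⟩
    · exact absurd h1 h2
    · exact ⟨h1, h3⟩
  · rintro ⟨h1, h2⟩
    exact ⟨Or.inr h1, fun h => hz (h ▸ h1), h2⟩

/-- sizes and co-sizes at least `s` -/
theorem Cls.sizes (h : Cls s V T) : ∀ Y ∈ T, s ≤ Y.card ∧ s ≤ (V \ Y).card := by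
  induction h with
  | base V h =>
    intro Y hY
    rw [mem_powersetCard] at hY
    rw [card_sdiff_of_subset hY.1, hY.2]
    omega
  | low V T z hz h ih =>
    intro Y hY
    have h2 := h.two_le
    rcases mem_union.1 hY with h1 | h1
    · have hzY : z ∉ Y := fun hh => hz (h.on Y h1 hh)
      rw [card_insert_sdiff hz hzY]
      have := ih Y h1
      omega
    · obtain ⟨S, hS, rfl⟩ := mem_image.1 h1
      rw [mem_powersetCard] at hS
      have hzS : z ∉ S := fun hh => hz (hS.1 hh)
      rw [card_insert_of_notMem hzS, insert_sdiff_insert' hz, card_sdiff_of_subset hS.1, hS.2]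
      omega
  | high V T z hz h ih =>
    intro Y hY
    have h2 := h.two_le
    rcases mem_union.1 hY with h1 | h1
    · obtain ⟨Y', hY', rfl⟩ := mem_image.1 h1
      have hzY : z ∉ Y' := fun hh => hz (h.on Y' hY' hh)
      rw [card_insert_of_notMem hzY, insert_sdiff_insert' hz]
      have := ih Y' hY'
      omega
    · rw [mem_powersetCard] at h1
      have hzY : z ∉ Y := fun hh => hz (h1.1 hh)
      rw [card_insert_sdiff hz hzY, card_sdiff_of_subset h1.1, h1.2]
      omega

/-- every `s`-set is inside a member -/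
theorem Cls.full (h : Cls s V T) : ∀ R ⊆ V, R.card ≤ s → ∃ Y ∈ T, R ⊆ Y := by
  induction h with
  | base V h =>
    intro R hR hRs
    obtain ⟨Y, h1, h2, h3⟩ := exists_subsuperset_card_eq hR hRs (by omega : s ≤ V.card)
    exact ⟨Y, mem_powersetCard.2 ⟨h2, h3⟩, h1⟩
  | low V T z hz h ih =>
    intro R hR hRs
    have h2 := h.two_le
    by_cases hzR : z ∈ R
    · have hR' : R.erase z ⊆ V := by
        intro a ha
        rcases mem_insert.1 (hR (mem_of_mem_erase ha)) with h1 | h1
        · exact absurd h1 (ne_of_mem_erase ha)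
        · exact h1
      have hc : (R.erase z).card ≤ s - 1 := by rw [card_erase_of_mem hzR]; omega
      obtain ⟨S, h3, h4, h5⟩ := exists_subsuperset_card_eq hR' hc (by omega : s - 1 ≤ V.card)
      refine ⟨insert z S, mem_union_right _ (mem_image.2 ⟨S, mem_powersetCard.2 ⟨h4, h5⟩, rfl⟩), ?_⟩
      rw [← insert_erase hzR]
      exact insert_subset_insert z h3
    · have hR' : R ⊆ V := (subset_insert_iff_of_notMem hzR).1 hR
      obtain ⟨Y, hY, hRY⟩ := ih R hR' hRs
      exact ⟨Y, mem_union_left _ hY, hRY⟩
  | high V T z hz h ih =>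
    intro R hR hRs
    have hR' : R.erase z ⊆ V := by
      intro a ha
      rcases mem_insert.1 (hR (mem_of_mem_erase ha)) with h1 | h1
      · exact absurd h1 (ne_of_mem_erase ha)
      · exact h1
    obtain ⟨Y, hY, hRY⟩ := ih (R.erase z) hR' ((card_erase_le).trans hRs)
    refine ⟨insert z Y, mem_union_left _ (mem_image.2 ⟨Y, hY, rfl⟩), ?_⟩
    intro a ha
    by_cases haz : a = z
    · rw [haz]; exact mem_insert_self z Y
    · exact mem_insert_of_mem (hRY (mem_erase.2 ⟨haz, ha⟩))

/-- every `s`-set is disjoint from a member -/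
theorem Cls.cofull (h : Cls s V T) : ∀ R ⊆ V, R.card ≤ s → ∃ Y ∈ T, Disjoint R Y := by
  induction h with
  | base V h =>
    intro R hR hRs
    have hc : s ≤ (V \ R).card := by rw [card_sdiff_of_subset hR]; omega
    obtain ⟨Y, h2, h3⟩ := exists_subset_card_eq hc
    exact ⟨Y, mem_powersetCard.2 ⟨h2.trans sdiff_subset, h3⟩,
      disjoint_of_subset_right h2 disjoint_sdiff⟩
  | low V T z hz h ih =>
    intro R hR hRs
    have hR' : R.erase z ⊆ V := by
      intro a ha
      rcases mem_insert.1 (hR (mem_of_mem_erase ha)) with h1 | h1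
      · exact absurd h1 (ne_of_mem_erase ha)
      · exact h1
    obtain ⟨Y, hY, hRY⟩ := ih (R.erase z) hR' ((card_erase_le).trans hRs)
    refine ⟨Y, mem_union_left _ hY, ?_⟩
    rw [disjoint_left] at hRY ⊢
    intro a ha haY
    by_cases haz : a = z
    · exact hz (haz ▸ h.on Y hY haY)
    · exact hRY (mem_erase.2 ⟨haz, ha⟩) haY
  | high V T z hz h ih =>
    intro R hR hRs
    have h2 := h.two_le
    by_cases hzR : z ∈ R
    · have hR' : R.erase z ⊆ V := by
        intro a ha
        rcases mem_insert.1 (hR (mem_of_mem_erase ha)) with h1 | h1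
        · exact absurd h1 (ne_of_mem_erase ha)
        · exact h1
      have hpos : 0 < R.card := card_pos.2 ⟨z, hzR⟩
      have hc : V.card + 1 - s ≤ (V \ R.erase z).card := by
        rw [card_sdiff_of_subset hR', card_erase_of_mem hzR]; omega
      obtain ⟨Y, h3, h4⟩ := exists_subset_card_eq hc
      refine ⟨Y, mem_union_right _ (mem_powersetCard.2 ⟨h3.trans sdiff_subset, h4⟩), ?_⟩
      rw [disjoint_left]
      intro a ha haY
      have h5 := mem_sdiff.1 (h3 haY)
      by_cases haz : a = z
      · exact hz (haz ▸ h5.1)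
      · exact h5.2 (mem_erase.2 ⟨haz, ha⟩)
    · have hR' : R ⊆ V := (subset_insert_iff_of_notMem hzR).1 hR
      obtain ⟨Y, hY, hRY⟩ := ih R hR' hRs
      refine ⟨insert z Y, mem_union_left _ (mem_image.2 ⟨Y, hY, rfl⟩), ?_⟩
      rw [disjoint_insert_right]
      exact ⟨hzR, hRY⟩

/-- a set with size and co-size at least `s` is at skew distance at least `s` from a member -/
theorem Cls.far (hs : 1 ≤ s) (h : Cls s V T) : ∀ X ⊆ V, s ≤ X.card → s ≤ (V \ X).card →
    ∃ Y ∈ T, s ≤ (X \ Y).card ∧ s ≤ (Y \ X).card := by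
  induction h with
  | base V h =>
    intro X hX h1 h2
    obtain ⟨Y, h3, h4⟩ := exists_subset_card_eq h2
    refine ⟨Y, mem_powersetCard.2 ⟨h3.trans sdiff_subset, h4⟩, ?_, ?_⟩
    · rw [sdiff_eq_self_of_disjoint]
      · exact h1
      · exact disjoint_of_subset_right h3 disjoint_sdiff
    · rw [sdiff_eq_self_of_disjoint]
      · omega
      · exact disjoint_of_subset_left h3 sdiff_disjoint
  | low V T z hz h ih =>
    intro X hX h1 h2
    have h2s := h.two_le
    by_cases hzX : z ∈ X
    · obtain ⟨X', hzX', rfl⟩ : ∃ X', z ∉ X' ∧ insert z X' = X :=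
        ⟨X.erase z, notMem_erase z X, insert_erase hzX⟩
      have hX' : X' ⊆ V := by
        intro a ha
        rcases mem_insert.1 (hX (mem_insert_of_mem ha)) with h3 | h3
        · exact absurd (h3 ▸ ha) hzX'
        · exact h3
      rw [card_insert_of_notMem hzX'] at h1
      rw [insert_sdiff_insert' hz] at h2
      rcases Nat.lt_or_ge X'.card s with h4 | h4
      · -- `|X'| = s - 1`
        obtain ⟨Y, hY, hd⟩ := h.cofull X' hX' h4.le
        have hzY : z ∉ Y := fun hh => hz (h.on Y hY hh)
        refine ⟨Y, mem_union_left _ hY, ?_, ?_⟩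
        · have : Disjoint (insert z X') Y := by
            rw [disjoint_insert_left]; exact ⟨hzY, hd⟩
          rw [sdiff_eq_self_of_disjoint this, card_insert_of_notMem hzX']
          exact h1
        · have : Disjoint Y (insert z X') := by
            rw [disjoint_insert_right]; exact ⟨hzY, hd.symm⟩
          rw [sdiff_eq_self_of_disjoint this]
          exact (h.sizes Y hY).1
      · obtain ⟨Y, hY, h5, h6⟩ := ih X' hX' h4 h2
        have hzY : z ∉ Y := fun hh => hz (h.on Y hY hh)
        refine ⟨Y, mem_union_left _ hY, ?_, ?_⟩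
        · exact h5.trans (card_le_card (sdiff_subset_sdiff (subset_insert z X') (Subset.refl Y)))
        · rw [sdiff_insert_of_notMem hzY]; exact h6
    · have hX' : X ⊆ V := (subset_insert_iff_of_notMem hzX).1 hX
      rw [card_insert_sdiff hz hzX] at h2
      obtain ⟨S, h3, h4⟩ := exists_subset_card_eq (by omega : s - 1 ≤ (V \ X).card)
      have hSV : S ⊆ V := h3.trans sdiff_subset
      have hzS : z ∉ S := fun hh => hz (hSV hh)
      have hd : Disjoint X (insert z S) := by
        rw [disjoint_insert_right]
        exact ⟨hzX, disjoint_of_subset_right h3 disjoint_sdiff⟩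
      refine ⟨insert z S, mem_union_right _ (mem_image.2 ⟨S, mem_powersetCard.2 ⟨hSV, h4⟩, rfl⟩),
        ?_, ?_⟩
      · rw [sdiff_eq_self_of_disjoint hd]; exact h1
      · rw [sdiff_eq_self_of_disjoint hd.symm, card_insert_of_notMem hzS]; omega
  | high V T z hz h ih =>
    intro X hX h1 h2
    have h2s := h.two_le
    by_cases hzX : z ∈ X
    · obtain ⟨X', hzX', rfl⟩ : ∃ X', z ∉ X' ∧ insert z X' = X :=
        ⟨X.erase z, notMem_erase z X, insert_erase hzX⟩
      have hX' : X' ⊆ V := by
        intro a ha
        rcases mem_insert.1 (hX (mem_insert_of_mem ha)) with h3 | h3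
        · exact absurd (h3 ▸ ha) hzX'
        · exact h3
      rw [card_insert_of_notMem hzX'] at h1
      rw [insert_sdiff_insert' hz] at h2
      obtain ⟨S, h3, h4⟩ := exists_subset_card_eq (by omega : s - 1 ≤ X'.card)
      have hSV : S ⊆ V := h3.trans hX'
      refine ⟨V \ S, mem_union_right _ (mem_powersetCard.2 ⟨sdiff_subset, ?_⟩), ?_, ?_⟩
      · rw [card_sdiff_of_subset hSV, h4]; omega
      · have : insert z S ⊆ insert z X' \ (V \ S) := by
          intro a ha
          rw [mem_sdiff, mem_sdiff]
          rcases mem_insert.1 ha with h5 | h5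
          · rw [h5]; exact ⟨mem_insert_self z X', fun h6 => hz h6.1⟩
          · exact ⟨mem_insert_of_mem (h3 h5), fun h6 => h6.2 h5⟩
        refine le_trans ?_ (card_le_card this)
        rw [card_insert_of_notMem (fun hh => hz (hSV hh)), h4]; omega
      · have : V \ X' ⊆ (V \ S) \ insert z X' := by
          intro a ha
          rw [mem_sdiff] at ha
          rw [mem_sdiff, mem_sdiff, mem_insert, not_or]
          exact ⟨⟨ha.1, fun h6 => ha.2 (h3 h6)⟩, fun h6 => hz (h6 ▸ ha.1), ha.2⟩
        exact h2.trans (card_le_card this)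
    · have hX' : X ⊆ V := (subset_insert_iff_of_notMem hzX).1 hX
      rw [card_insert_sdiff hz hzX] at h2
      rcases Nat.lt_or_ge (V \ X).card s with h4 | h4
      · obtain ⟨Y, hY, hd⟩ := h.full (V \ X) sdiff_subset h4.le
        have hzY : z ∉ Y := fun hh => hz (h.on Y hY hh)
        refine ⟨insert z Y, mem_union_left _ (mem_image.2 ⟨Y, hY, rfl⟩), ?_, ?_⟩
        · have : V \ Y ⊆ X \ insert z Y := by
            intro a ha
            rw [mem_sdiff] at ha
            rw [mem_sdiff, mem_insert, not_or]
            refine ⟨?_, fun h6 => hz (h6 ▸ ha.1), ha.2⟩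
            by_contra h7
            exact ha.2 (hd (mem_sdiff.2 ⟨ha.1, h7⟩))
          exact ((h.sizes Y hY).2).trans (card_le_card this)
        · have : insert z (V \ X) ⊆ insert z Y \ X := by
            intro a ha
            rw [mem_sdiff]
            rcases mem_insert.1 ha with h5 | h5
            · rw [h5]; exact ⟨mem_insert_self z Y, hzX⟩
            · exact ⟨mem_insert_of_mem (hd h5), (mem_sdiff.1 h5).2⟩
          refine le_trans ?_ (card_le_card this)
          rw [card_insert_of_notMem (fun hh => hz (mem_sdiff.1 hh).1)]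
          exact h2
      · obtain ⟨Y, hY, h5, h6⟩ := ih X hX' h1 h4
        refine ⟨insert z Y, mem_union_left _ (mem_image.2 ⟨Y, hY, rfl⟩), ?_, ?_⟩
        · rw [sdiff_insert_of_notMem hzX]; exact h5
        · exact h6.trans (card_le_card (sdiff_subset_sdiff (subset_insert z Y) (Subset.refl X)))

/-- what can be the deletion if the link is an explicit family -/
theorem Cls.peel (hs : 1 ≤ s) (h : Cls s V T) : ∀ X ⊆ V, (∀ Y ∈ T, ¬ X ⊆ Y) →
    (∀ Y ∈ T, (X \ Y).card ≤ s ∨ (Y \ X).card + 1 ≤ s) → (V \ X).card ≤ s - 1 := by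
  induction h with
  | base V h =>
    intro X hX h1 _
    by_contra h2
    have h3 : X.card ≤ s := by
      rw [card_sdiff_of_subset hX] at h2; omega
    obtain ⟨Y, h4, h5, h6⟩ := exists_subsuperset_card_eq hX h3 (by omega : s ≤ V.card)
    exact h1 Y (mem_powersetCard.2 ⟨h5, h6⟩) h4
  | low V T z hz h ih =>
    intro X hX h1 h2
    have h2s := h.two_le
    by_cases hzX : z ∈ X
    · obtain ⟨X', hzX', rfl⟩ : ∃ X', z ∉ X' ∧ insert z X' = X :=
        ⟨X.erase z, notMem_erase z X, insert_erase hzX⟩
      have hX' : X' ⊆ V := by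
        intro a ha
        rcases mem_insert.1 (hX (mem_insert_of_mem ha)) with h3 | h3
        · exact absurd (h3 ▸ ha) hzX'
        · exact h3
      rw [insert_sdiff_insert' hz]
      have h3 : s ≤ X'.card := by
        by_contra h4
        obtain ⟨S, h5, h6, h7⟩ := exists_subsuperset_card_eq hX' (by omega : X'.card ≤ s - 1)
          (by omega : s - 1 ≤ V.card)
        exact h1 (insert z S) (mem_union_right _ (mem_image.2 ⟨S, mem_powersetCard.2 ⟨h6, h7⟩,
          rfl⟩)) (insert_subset_insert z h5)
      by_contra h4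
      obtain ⟨Y, hY, h5, h6⟩ := h.far hs X' hX' h3 (by omega)
      have hzY : z ∉ Y := fun hh => hz (h.on Y hY hh)
      have h7 := h2 Y (mem_union_left _ hY)
      rw [insert_sdiff_of_notMem _ hzY, card_insert_of_notMem
        (fun hh => hzX' (mem_sdiff.1 hh).1), sdiff_insert_of_notMem hzY] at h7
      omega
    · have hX' : X ⊆ V := (subset_insert_iff_of_notMem hzX).1 hX
      rw [card_insert_sdiff hz hzX]
      have h3 : s < X.card := by
        by_contra h4
        obtain ⟨Y, hY, h5⟩ := h.full X hX' (by omega)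
        exact h1 Y (mem_union_left _ hY) h5
      by_contra h4
      obtain ⟨S, h5, h6⟩ := exists_subset_card_eq (by omega : s - 1 ≤ (V \ X).card)
      have hSV : S ⊆ V := h5.trans sdiff_subset
      have hzS : z ∉ S := fun hh => hz (hSV hh)
      have hd : Disjoint X (insert z S) := by
        rw [disjoint_insert_right]
        exact ⟨hzX, disjoint_of_subset_right h5 disjoint_sdiff⟩
      have h7 := h2 (insert z S) (mem_union_right _ (mem_image.2 ⟨S, mem_powersetCard.2
        ⟨hSV, h6⟩, rfl⟩))
      rw [sdiff_eq_self_of_disjoint hd, sdiff_eq_self_of_disjoint hd.symm,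
        card_insert_of_notMem hzS] at h7
      omega
  | high V T z hz h ih =>
    intro X hX h1 h2
    have h2s := h.two_le
    by_cases hzX : z ∈ X
    · obtain ⟨X', hzX', rfl⟩ : ∃ X', z ∉ X' ∧ insert z X' = X :=
        ⟨X.erase z, notMem_erase z X, insert_erase hzX⟩
      have hX' : X' ⊆ V := by
        intro a ha
        rcases mem_insert.1 (hX (mem_insert_of_mem ha)) with h3 | h3
        · exact absurd (h3 ▸ ha) hzX'
        · exact h3
      rw [insert_sdiff_insert' hz]
      apply ih X' hX'
      · intro Y hY h3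
        exact h1 (insert z Y) (mem_union_left _ (mem_image.2 ⟨Y, hY, rfl⟩))
          (insert_subset_insert z h3)
      · intro Y hY
        have hzY : z ∉ Y := fun hh => hz (h.on Y hY hh)
        have h3 := h2 (insert z Y) (mem_union_left _ (mem_image.2 ⟨Y, hY, rfl⟩))
        rwa [insert_sdiff_insert' hzX', insert_sdiff_insert' hzY] at h3
    · have hX' : X ⊆ V := (subset_insert_iff_of_notMem hzX).1 hX
      rw [card_insert_sdiff hz hzX]
      by_contra h3
      have h4 : X.card ≤ V.card + 1 - s := by
        have h5 := card_le_card hX'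
        rw [card_sdiff_of_subset hX'] at h3; omega
      obtain ⟨R, h5, h6, h7⟩ := exists_subsuperset_card_eq hX' h4
        (by omega : V.card + 1 - s ≤ V.card)
      exact h1 R (mem_union_right _ (mem_powersetCard.2 ⟨h6, h7⟩)) h5

/-- the dual statement -/
theorem Cls.copeel (hs : 1 ≤ s) (h : Cls s V T) : ∀ X ⊆ V, (∀ Y ∈ T, ¬ Y ⊆ X) →
    (∀ Y ∈ T, (X \ Y).card + 1 ≤ s ∨ (Y \ X).card ≤ s) → X.card ≤ s - 1 := by
  induction h with
  | base V h =>
    intro X hX h1 _
    by_contra h2
    obtain ⟨Y, h4, h5⟩ := exists_subset_card_eq (by omega : s ≤ X.card)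
    exact h1 Y (mem_powersetCard.2 ⟨h4.trans hX, h5⟩) h4
  | low V T z hz h ih =>
    intro X hX h1 h2
    have h2s := h.two_le
    by_cases hzX : z ∈ X
    · obtain ⟨X', hzX', rfl⟩ : ∃ X', z ∉ X' ∧ insert z X' = X :=
        ⟨X.erase z, notMem_erase z X, insert_erase hzX⟩
      have hX' : X' ⊆ V := by
        intro a ha
        rcases mem_insert.1 (hX (mem_insert_of_mem ha)) with h3 | h3
        · exact absurd (h3 ▸ ha) hzX'
        · exact h3
      rw [card_insert_of_notMem hzX']
      by_contra h4
      obtain ⟨S, h5, h6⟩ := exists_subset_card_eq (by omega : s - 1 ≤ X'.card)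
      exact h1 (insert z S) (mem_union_right _ (mem_image.2 ⟨S, mem_powersetCard.2
        ⟨h5.trans hX', h6⟩, rfl⟩)) (insert_subset_insert z h5)
    · have hX' : X ⊆ V := (subset_insert_iff_of_notMem hzX).1 hX
      apply ih X hX'
      · exact fun Y hY h3 => h1 Y (mem_union_left _ hY) h3
      · exact fun Y hY => h2 Y (mem_union_left _ hY)
  | high V T z hz h ih =>
    intro X hX h1 h2
    have h2s := h.two_le
    by_cases hzX : z ∈ X
    · obtain ⟨X', hzX', rfl⟩ : ∃ X', z ∉ X' ∧ insert z X' = X :=
        ⟨X.erase z, notMem_erase z X, insert_erase hzX⟩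
      have hX' : X' ⊆ V := by
        intro a ha
        rcases mem_insert.1 (hX (mem_insert_of_mem ha)) with h3 | h3
        · exact absurd (h3 ▸ ha) hzX'
        · exact h3
      rw [card_insert_of_notMem hzX']
      have h3 : s < (V \ X').card := by
        by_contra h4
        obtain ⟨Y, hY, h5⟩ := h.cofull (V \ X') sdiff_subset (by omega)
        have hzY : z ∉ Y := fun hh => hz (h.on Y hY hh)
        apply h1 (insert z Y) (mem_union_left _ (mem_image.2 ⟨Y, hY, rfl⟩))
        apply insert_subset_insert
        intro a ha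
        by_contra h6
        exact (disjoint_left.1 h5) (mem_sdiff.2 ⟨h.on Y hY ha, h6⟩) ha
      by_contra h4
      obtain ⟨S, h5, h6⟩ := exists_subset_card_eq (by omega : s - 1 ≤ X'.card)
      have hSV : S ⊆ V := h5.trans hX'
      have h7 := h2 (V \ S) (mem_union_right _ (mem_powersetCard.2 ⟨sdiff_subset, by
        rw [card_sdiff_of_subset hSV, h6]; omega⟩))
      have h8 : insert z S ⊆ insert z X' \ (V \ S) := by
        intro a ha
        rw [mem_sdiff, mem_sdiff]
        rcases mem_insert.1 ha with h9 | h9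
        · rw [h9]; exact ⟨mem_insert_self z X', fun h6 => hz h6.1⟩
        · exact ⟨mem_insert_of_mem (h5 h9), fun h6 => h6.2 h9⟩
      have h9 : V \ X' ⊆ (V \ S) \ insert z X' := by
        intro a ha
        rw [mem_sdiff] at ha
        rw [mem_sdiff, mem_sdiff, mem_insert, not_or]
        exact ⟨⟨ha.1, fun h6 => ha.2 (h5 h6)⟩, fun h6 => hz (h6 ▸ ha.1), ha.2⟩
      have h10 := card_le_card h8
      have h11 := card_le_card h9
      rw [card_insert_of_notMem (fun hh => hz (hSV hh)), h6] at h10
      omega
    · have hX' : X ⊆ V := (subset_insert_iff_of_notMem hzX).1 hX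
      have h3 : X.card ≤ V.card - s := by
        by_contra h4
        obtain ⟨R, h5, h6⟩ := exists_subset_card_eq (by omega : V.card + 1 - s ≤ X.card)
        exact h1 R (mem_union_right _ (mem_powersetCard.2 ⟨h5.trans hX', h6⟩)) h5
      by_contra h4
      obtain ⟨Y, hY, h5, h6⟩ := h.far hs X hX' (by omega) (by
        rw [card_sdiff_of_subset hX']; omega)
      have hzY : z ∉ Y := fun hh => hz (h.on Y hY hh)
      have h7 := h2 (insert z Y) (mem_union_left _ (mem_image.2 ⟨Y, hY, rfl⟩))
      rw [sdiff_insert_of_notMem hzX, insert_sdiff_of_notMem _ hzX, card_insert_of_notMem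
        (fun hh => hzY (mem_sdiff.1 hh).1)] at h7
      omega

end SHK
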