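import Pool.Agent.SHK.Cls
import Pool.Agent.SHK.Base

/-!
# Tight families have a leader ⟹ TOP and the classification of tight families

`CL α`: every tight `(W)_s` antichain (`|F| = C(n,s)`, `n > 2 s`, `s ≥ 1`) has a point `x` with
`|F_1^x| ≤ C(n-1,s-1)` or `|F_0^x| ≤ C(n-1,s-1)`; one may assume `Below`: TOP and the classification
for all smaller ground sets. Conclusion: `TOP α n s` for all `2 s ≤ n`, and all tight families are
the explicit ones (`Cls`).
-/

set_option autoImplicit false

open Finset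

namespace SHK

variable {α : Type*} [DecidableEq α]

theorem F1_on {V : Finset α} {F : Finset (Finset α)} (hV : On V F) (x : α) :
    On (V.erase x) (F1 x F) := by
  intro Y hY
  obtain ⟨h1, h2⟩ := mem_F1.1 hY
  intro a ha
  rw [mem_erase]
  exact ⟨fun h => h1 (h ▸ ha), hV _ h2 (mem_insert_of_mem ha)⟩

theorem F0_on {V : Finset α} {F : Finset (Finset α)} (hV : On V F) (x : α) :
    On (V.erase x) (F0 x F) := by
  intro X hX
  obtain ⟨h1, h2⟩ := mem_F0.1 hX
  intro a ha
  rw [mem_erase]
  exact ⟨fun h => h2 (h ▸ ha), hV _ h1 ha⟩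

theorem F1_AC {F : Finset (Finset α)} (hF : AC F) (x : α) : AC (F1 x F) := by
  intro A hA B hB hne hsub
  obtain ⟨h1, h2⟩ := mem_F1.1 (mem_coe.1 hA)
  obtain ⟨h3, h4⟩ := mem_F1.1 (mem_coe.1 hB)
  apply hF h2 h4
  · intro h
    apply hne
    rw [← erase_insert h1, ← erase_insert h3, h]
  · exact insert_subset_insert x hsub

theorem F0_AC {F : Finset (Finset α)} (hF : AC F) (x : α) : AC (F0 x F) :=
  hF.mono (filter_subset _ _)

theorem F1_Ws {s : ℕ} {F : Finset (Finset α)} (hW : Ws s F) (x : α) : Ws s (F1 x F) := by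
  intro A hA B hB
  obtain ⟨h1, h2⟩ := mem_F1.1 hA
  obtain ⟨h3, h4⟩ := mem_F1.1 hB
  have := hW _ h2 _ h4
  rwa [insert_sdiff_insert' h1, insert_sdiff_insert' h3] at this

theorem F0_Ws {s : ℕ} {F : Finset (Finset α)} (hW : Ws s F) (x : α) : Ws s (F0 x F) :=
  hW.mono (filter_subset _ _)

theorem cross_not_subset {F : Finset (Finset α)} (hF : AC F) {x : α} {X Y : Finset α}
    (hX : X ∈ F0 x F) (hY : Y ∈ F1 x F) : ¬ X ⊆ Y := by
  obtain ⟨h1, h2⟩ := mem_F0.1 hX
  obtain ⟨h3, h4⟩ := mem_F1.1 hY
  intro h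
  apply hF h1 h4
  · intro h5
    exact h2 (h5 ▸ mem_insert_self x Y)
  · exact h.trans (subset_insert x Y)

theorem cross_Ws {s : ℕ} {F : Finset (Finset α)} (hW : Ws s F) {x : α} {X Y : Finset α}
    (hX : X ∈ F0 x F) (hY : Y ∈ F1 x F) : (X \ Y).card ≤ s ∨ (Y \ X).card + 1 ≤ s := by
  obtain ⟨h1, h2⟩ := mem_F0.1 hX
  obtain ⟨h3, h4⟩ := mem_F1.1 hY
  have h5 := hW X h1 _ h4
  rwa [sdiff_insert_of_notMem h2, insert_sdiff_of_notMem _ h2, card_insert_of_notMem
    (fun h => h3 (mem_sdiff.1 h).1)] at h5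

variable (α)

/-- TOP and the classification for all ground sets with fewer than `n` points -/
def Below (n : ℕ) : Prop :=
  (∀ m s : ℕ, m < n → 2 * s ≤ m → TOP α m s) ∧
  ∀ (V : Finset α) (s : ℕ) (F : Finset (Finset α)), V.card < n → 1 ≤ s → 2 * s ≤ V.card →
    On V F → AC F → Ws s F → V.card.choose s ≤ F.card → Cls s V F

/-- (CL): tight families have a leader -/
def CL : Prop :=
  ∀ (V : Finset α) (s : ℕ) (F : Finset (Finset α)), 1 ≤ s → 2 * s < V.card → Below α V.card →
    On V F → AC F → Ws s F → F.card = V.card.choose s →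
    ∃ x ∈ V, (F1 x F).card ≤ (V.card - 1).choose (s - 1) ∨
      (F0 x F).card ≤ (V.card - 1).choose (s - 1)

variable {α}

/-- tight link: the deletion is small -/
theorem stepA {V : Finset α} {s : ℕ} {F : Finset (Finset α)} (hs : 1 ≤ s) (h2 : 2 * s < V.card)
    (hB : Below α V.card) (hV : On V F) (hF : AC F) (hW : Ws s F) {x : α} (hx : x ∈ V)
    (h : (V.card - 1).choose s ≤ (F1 x F).card) :
    Cls s (V.erase x) (F1 x F) ∧ (F0 x F).card ≤ (V.card - 1).choose (s - 1) ∧
      ((V.card - 1).choose (s - 1) ≤ (F0 x F).card →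
        F0 x F = (V.erase x).powersetCard ((V.erase x).card + 1 - s)) := by
  have hc : (V.erase x).card = V.card - 1 := card_erase_of_mem hx
  have hcls : Cls s (V.erase x) (F1 x F) :=
    hB.2 _ s _ (by omega) hs (by omega) (F1_on hV x) (F1_AC hF x) (F1_Ws hW x) (by rwa [hc])
  have hco : ∀ X ∈ F0 x F, (V.erase x \ X).card ≤ s - 1 := by
    intro X hX
    exact hcls.peel hs X (F0_on hV x X hX) (fun Y hY => cross_not_subset hF hX hY)
      (fun Y hY => cross_Ws hW hX hY)
  refine ⟨hcls, ?_, fun h3 => ?_⟩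
  · have := large_le (F0_on hV x) (F0_AC hF x) (by omega : 2 * (s - 1) ≤ (V.erase x).card) hco
    rwa [hc] at this
  · have := large_eq (F0_on hV x) (F0_AC hF x) (by omega : 2 * (s - 1) ≤ (V.erase x).card) hco
      (by rwa [hc])
    rw [this]
    congr 1
    omega

/-- tight deletion: the link is small -/
theorem stepB {V : Finset α} {s : ℕ} {F : Finset (Finset α)} (hs : 1 ≤ s) (h2 : 2 * s < V.card)
    (hB : Below α V.card) (hV : On V F) (hF : AC F) (hW : Ws s F) {x : α} (hx : x ∈ V)
    (h : (V.card - 1).choose s ≤ (F0 x F).card) :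
    Cls s (V.erase x) (F0 x F) ∧ (F1 x F).card ≤ (V.card - 1).choose (s - 1) ∧
      ((V.card - 1).choose (s - 1) ≤ (F1 x F).card →
        F1 x F = (V.erase x).powersetCard (s - 1)) := by
  have hc : (V.erase x).card = V.card - 1 := card_erase_of_mem hx
  have hcls : Cls s (V.erase x) (F0 x F) :=
    hB.2 _ s _ (by omega) hs (by omega) (F0_on hV x) (F0_AC hF x) (F0_Ws hW x) (by rwa [hc])
  have hco : ∀ Y ∈ F1 x F, Y.card ≤ s - 1 := by
    intro Y hY
    exact hcls.copeel hs Y (F1_on hV x Y hY) (fun X hX => cross_not_subset hF hX hY)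
      (fun X hX => (cross_Ws hW hX hY).symm)
  refine ⟨hcls, ?_, fun h3 => ?_⟩
  · have := small_le (F1_on hV x) (F1_AC hF x) (by omega : 2 * (s - 1) ≤ (V.erase x).card) hco
    rwa [hc] at this
  · exact small_eq (F1_on hV x) (F1_AC hF x) (by omega : 2 * (s - 1) ≤ (V.erase x).card) hco
      (by rwa [hc])

theorem image_F1_union_F0 (F : Finset (Finset α)) (x : α) :
    (F1 x F).image (insert x) ∪ F0 x F = F := by
  ext X
  rw [mem_union, mem_image, mem_F0]
  constructor
  · rintro (⟨Y, hY, rfl⟩ | h)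
    · exact (mem_F1.1 hY).2
    · exact h.1
  · intro hX
    by_cases hx : x ∈ X
    · exact Or.inl ⟨X.erase x, mem_F1.2 ⟨notMem_erase x X, by rwa [insert_erase hx]⟩,
        insert_erase hx⟩
    · exact Or.inr ⟨hX, hx⟩

theorem pascal {n s : ℕ} (hn : 1 ≤ n) (hs : 1 ≤ s) :
    n.choose s = (n - 1).choose (s - 1) + (n - 1).choose s := by
  obtain ⟨n, rfl⟩ : ∃ m, n = m + 1 := ⟨n - 1, by omega⟩
  obtain ⟨s, rfl⟩ : ∃ m, s = m + 1 := ⟨s - 1, by omega⟩
  simp [Nat.choose_succ_succ]

/-- one more point -/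
theorem below_succ (H : CL α) {n : ℕ} (hB : Below α n) : Below α (n + 1) := by
  have hsplit : ∀ (V : Finset α) (s : ℕ) (F : Finset (Finset α)), V.card = n → 1 ≤ s →
      2 * s < n → On V F → AC F → Ws s F → ∀ x ∈ V,
      (F1 x F).card ≤ (n - 1).choose s ∧ (F0 x F).card ≤ (n - 1).choose s := by
    intro V s F hc hs h2 hV hF hW x hx
    have hc' : (V.erase x).card = n - 1 := by rw [card_erase_of_mem hx, hc]
    have hT := hB.1 (n - 1) s (by omega) (by omega)
    exact ⟨hT _ _ hc' (F1_on hV x) (F1_AC hF x) (F1_Ws hW x),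
      hT _ _ hc' (F0_on hV x) (F0_AC hF x) (F0_Ws hW x)⟩
  have htop : ∀ s : ℕ, 2 * s ≤ n → TOP α n s := by
    intro s h2 V F hc hV hF hW
    rcases Nat.eq_zero_or_pos s with hs0 | hs
    · subst hs0
      rw [Nat.choose_zero_right]
      exact ws_zero hW hF
    rcases h2.eq_or_lt with h2 | h2
    · have := (sperner_even hV hF (s := s) (by omega)).1
      rwa [hc] at this
    by_contra hcon
    push Not at hcon
    obtain ⟨G, hGF, hG⟩ := exists_subset_card_eq (Nat.succ_le_of_lt hcon)
    have hne : G.Nonempty := by rw [← card_pos]; omega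
    obtain ⟨W, hWG⟩ := hne
    have hGV : On V G := fun X hX => hV X (hGF hX)
    have hGF' : AC G := hF.mono hGF
    have hGW : Ws s G := hW.mono hGF
    have hsub : G.erase W ⊆ G := erase_subset W G
    obtain ⟨x, hx, h⟩ := H V s (G.erase W) hs (by omega) (by rw [hc]; exact hB)
      (fun X hX => hGV X (hsub hX)) (hGF'.mono hsub) (hGW.mono hsub)
      (by rw [card_erase_of_mem hWG, hG, hc]; rfl)
    rw [hc] at h
    have hsum := card_F1_add_card_F0 (F := G) x
    have hsum' := card_F1_add_card_F0 (F := G.erase W) x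
    have hcard : (G.erase W).card + 1 = G.card := card_erase_add_one hWG
    have hp := pascal (n := n) (s := s) (by omega) hs
    have hsp := hsplit V s G hc hs h2 hGV hGF' hGW x hx
    have hmono1 : (F1 x (G.erase W)).card ≤ (F1 x G).card := by
      apply card_le_card
      exact image_subset_image (filter_subset_filter _ hsub)
    have hmono0 : (F0 x (G.erase W)).card ≤ (F0 x G).card := by
      apply card_le_card
      exact filter_subset_filter _ hsub
    rcases h with h | h
    · -- small link: the deletion is tight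
      have h3 := (stepB hs (by omega) (by rw [hc]; exact hB) hGV hGF' hGW hx
        (by rw [hc]; omega)).2.1
      rw [hc] at h3
      omega
    · have h3 := (stepA hs (by omega) (by rw [hc]; exact hB) hGV hGF' hGW hx
        (by rw [hc]; omega)).2.1
      rw [hc] at h3
      omega
  refine ⟨fun m s hm h2 => ?_, fun V s F hm hs h2 hV hF hW hc => ?_⟩
  · rcases Nat.lt_or_ge m n with h | h
    · exact hB.1 m s h h2
    · have : m = n := by omega
      subst this
      exact htop s h2
  · rcases Nat.lt_or_ge V.card n with h | h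
    · exact hB.2 V s F h hs h2 hV hF hW hc
    have hn : V.card = n := by omega
    rcases h2.eq_or_lt with h2 | h2
    · have := (sperner_even hV hF (s := s) h2.symm).2 hc
      rw [this]
      exact Cls.base V h2.symm
    have hle : F.card ≤ V.card.choose s := by
      have := htop s (by omega) V F hn hV hF hW
      rwa [hn]
    obtain ⟨x, hx, h⟩ := H V s F hs h2 (by rw [hn]; exact hB) hV hF hW (le_antisymm hle hc)
    have hsum := card_F1_add_card_F0 (F := F) x
    have hp := pascal (n := V.card) (s := s) (by omega) hs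
    have hsp := hsplit V s F hn hs (by omega) hV hF hW x hx
    rw [← hn] at hsp
    have hFx := image_F1_union_F0 F x
    have hVx := insert_erase hx
    rcases h with h | h
    · obtain ⟨h3, h4, h5⟩ := stepB hs h2 (by rw [hn]; exact hB) hV hF hW hx (by omega)
      have h6 := Cls.low _ _ x (notMem_erase x V) h3
      rw [hVx, ← h5 (by omega), union_comm, hFx] at h6
      exact h6
    · obtain ⟨h3, h4, h5⟩ := stepA hs h2 (by rw [hn]; exact hB) hV hF hW hx (by omega)
      have h6 := Cls.high _ _ x (notMem_erase x V) h3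
      rw [hVx, ← h5 (by omega), hFx] at h6
      exact h6

theorem below_of_CL (H : CL α) (n : ℕ) : Below α n := by
  induction n with
  | zero => exact ⟨fun m s hm => absurd hm (Nat.not_lt_zero m),
      fun V s F hm => absurd hm (Nat.not_lt_zero _)⟩
  | succ n ih => exact below_succ H ih

/-- (CL) ⟹ TOP -/
theorem top_of_CL (H : CL α) (n s : ℕ) (h : 2 * s ≤ n) : TOP α n s :=
  (below_of_CL H (n + 1)).1 n s (Nat.lt_succ_self n) h

/-- (CL) ⟹ the classification of the tight families -/
theorem cls_of_CL (H : CL α) {V : Finset α} {s : ℕ} {F : Finset (Finset α)} (hs : 1 ≤ s)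
    (h2 : 2 * s ≤ V.card) (hV : On V F) (hF : AC F) (hW : Ws s F)
    (hc : V.card.choose s ≤ F.card) : Cls s V F :=
  (below_of_CL H (V.card + 1)).2 V s F (Nat.lt_succ_self _) hs h2 hV hF hW hc

end SHK
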