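import Pool.Agent.SHK.FSHV

/-!
# Diameter form: full shadow (FS_D) + weak bound for the middle range (MID_D) ⟹ S12353

`Ds s F`: all symmetric differences have size `≤ 2 s + 1`. `MinD s F`: `F` is a counterexample to
(SH) in diameter form, with all sizes `> s`, minimal in the size of the support, then in the number
of members. If every `MinD` family has full shadow and every `MinD` family with full shadow and
sizes in `[s+1, n-s-1]` (`n` = number of points) has at most `C(n,s)` members, then (SH) holds in
diameter form, hence S12353.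
-/

set_option autoImplicit false

open Finset

namespace SHK

variable {α : Type*} [DecidableEq α]

/-- diameter at most `2 s + 1` -/
def Ds (s : ℕ) (F : Finset (Finset α)) : Prop :=
  ∀ X ∈ F, ∀ Y ∈ F, (symmDiff X Y).card ≤ 2 * s + 1

theorem card_symmDiff' (X Y : Finset α) :
    (symmDiff X Y).card = (X \ Y).card + (Y \ X).card := by
  rw [symmDiff_def, sup_eq_union, card_union_of_disjoint]
  exact disjoint_sdiff_sdiff

theorem Ds.ws {s : ℕ} {F : Finset (Finset α)} (h : Ds s F) : Ws s F := by
  intro X hX Y hY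
  have h1 := h X hX Y hY
  rw [card_symmDiff'] at h1
  omega

theorem Ds.mono {s : ℕ} {F G : Finset (Finset α)} (h : Ds s F) (hG : G ⊆ F) : Ds s G :=
  fun X hX Y hY => h X (hG hX) Y (hG hY)

theorem ds_cF {V : Finset α} {F : Finset (Finset α)} {s : ℕ} (hV : On V F) (h : Ds s F) :
    Ds s (cF V F) := by
  intro A hA B hB
  obtain ⟨X, hX, rfl⟩ := mem_cF.1 hA
  obtain ⟨Y, hY, rfl⟩ := mem_cF.1 hB
  have h1 := h X hX Y hY
  rw [card_symmDiff'] at h1 ⊢
  rw [sdiff_cF (hV Y hY), sdiff_cF (hV X hX)]
  omega

/-- minimal counterexample to (SH) in diameter form -/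
structure MinD (s : ℕ) (F : Finset (Finset α)) : Prop where
  ac : AC F
  ds : Ds s F
  size : ∀ X ∈ F, s < X.card
  bad : (sh s F).card < F.card
  small : ∀ (t : ℕ) (G : Finset (Finset α)), AC G → Ds t G → (∀ X ∈ G, t ≤ X.card) →
    (supp G).card < (supp F).card → G.card ≤ (sh t G).card
  fewer : ∀ G : Finset (Finset α), AC G → Ds s G → (∀ X ∈ G, s ≤ X.card) →
    (supp G).card ≤ (supp F).card → G.card < F.card → G.card ≤ (sh s G).card

theorem MinD.crit {s : ℕ} {F : Finset (Finset α)} (h : MinD s F) : Crit s F := by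
  refine ⟨h.bad, fun B hB => h.fewer B (h.ac.mono hB.1) (h.ds.mono hB.1)
    (fun X hX => (h.size X (hB.1 hX)).le) (card_le_card (supp_mono hB.1)) (card_lt_card hB)⟩

theorem MinD.nonempty {s : ℕ} {F : Finset (Finset α)} (h : MinD s F) : F.Nonempty :=
  card_pos.1 (lt_of_le_of_lt (Nat.zero_le _) h.bad)

theorem MinD.two_mul_lt {s : ℕ} {F : Finset (Finset α)} (h : MinD s F) :
    2 * s < (supp F).card := by
  by_contra hlt
  have h1 := shon_base (V := supp F) (s := s) (by omega) F (on_supp F) h.ds.ws h.ac
    (fun X hX => (h.size X hX).le)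
  exact absurd h.bad (not_lt.2 h1)

/-- with full shadow all members of a minimal counterexample have size `< n - s` -/
theorem MinD.core {s : ℕ} {F : Finset (Finset α)} (h : MinD s F)
    (hfs : sh s F = (supp F).powersetCard s) : ∀ X ∈ F, X.card + s < (supp F).card := by
  classical
  by_contra hcon
  push Not at hcon
  obtain ⟨X₀, hX₀, hX₀s⟩ := hcon
  set V := supp F with hVdef
  have hV : On V F := on_supp F
  have hc : (sh s F).card = V.card.choose s := by rw [hfs, card_powersetCard]
  set H := F.filter fun X => V.card ≤ X.card + s with hH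
  set T := F.filter fun X => ¬ V.card ≤ X.card + s with hT
  have hcard : F.card = H.card + T.card := (card_filter_add_card_filter_not _).symm
  have hHne : 0 < H.card := card_pos.2 ⟨X₀, mem_filter.2 ⟨hX₀, hX₀s⟩⟩
  have hTV : On V T := fun X hX => hV X (mem_filter.1 hX).1
  have hHV : On V H := fun X hX => hV X (mem_filter.1 hX).1
  have hTF : T ⊆ F := filter_subset _ _
  have h1 := h.fewer (cF V T) (ac_cF hTV (h.ac.mono hTF)) (ds_cF hTV (h.ds.mono hTF)) (by
      intro Y hY
      obtain ⟨X, hX, rfl⟩ := mem_cF.1 hY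
      rw [card_sdiff_of_on (hTV X hX)]
      have := (mem_filter.1 hX).2
      omega) (by
      apply card_le_card
      intro z hz
      obtain ⟨Y, hY, hzY⟩ := mem_supp.1 hz
      exact on_cF V T Y hY hzY) (by rw [card_cF hTV]; omega)
  rw [card_cF hTV] at h1
  have h2 := push (V := V) (s := s) (h.two_mul_lt).le (A := cF V H) (K := sh s (cF V T))
    (on_cF V H) (ac_cF hHV (h.ac.mono (filter_subset _ _))) (by
      intro Y hY
      obtain ⟨X, hX, rfl⟩ := mem_cF.1 hY
      rw [card_sdiff_of_on (hHV X hX)]
      have := (mem_filter.1 hX).2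
      omega) (sh_subset (on_cF V T)) (by
      intro A hA S hS hsub
      obtain ⟨Y, hY, rfl⟩ := mem_cF.1 hA
      obtain ⟨B, hB, hSB, -⟩ := mem_sh.1 hS
      obtain ⟨Z, hZ, rfl⟩ := mem_cF.1 hB
      have hsub' : V \ Y ⊆ V \ Z := hsub.trans hSB
      have hZY : Z ⊆ Y := by
        intro y hy
        by_contra hyY
        have : y ∈ V \ Z := hsub' (mem_sdiff.2 ⟨hTV Z hZ hy, hyY⟩)
        exact (mem_sdiff.1 this).2 hy
      have hne : Z ≠ Y := by
        rintro rfl
        exact (mem_filter.1 hZ).2 (mem_filter.1 hY).2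
      exact h.ac (hTF hZ) (mem_filter.1 hY).1 hne hZY)
  rw [card_cF hHV] at h2
  have h3 := h.bad
  omega

/-- existence of a minimal counterexample -/
theorem shd_of_min
    (H : ∀ (s : ℕ) (F : Finset (Finset α)), 1 ≤ s → MinD s F → False) :
    ∀ (s : ℕ) (F : Finset (Finset α)), AC F → Ds s F → (∀ X ∈ F, s ≤ X.card) →
      F.card ≤ (sh s F).card := by
  suffices key : ∀ (n m s : ℕ) (F : Finset (Finset α)), (supp F).card = n → F.card = m → AC F →
      Ds s F → (∀ X ∈ F, s ≤ X.card) → F.card ≤ (sh s F).card from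
    fun s F h1 h2 h3 => key _ _ s F rfl rfl h1 h2 h3
  intro n
  induction n using Nat.strong_induction_on with
  | _ n ihn =>
    intro m
    induction m using Nat.strong_induction_on with
    | _ m ihm =>
      intro s F hn hm hF hD hs
      apply split_level hF hs
      set T := F.filter fun X => s < X.card with hT
      have hTF : T ⊆ F := filter_subset _ _
      have hTs : ∀ X ∈ T, s < X.card := fun X hX => (mem_filter.1 hX).2
      have hTn : (supp T).card ≤ n := hn ▸ card_le_card (supp_mono hTF)
      have hTm : T.card ≤ m := hm ▸ card_le_card hTF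
      rcases Nat.lt_or_ge (supp T).card n with hlt | hge
      · exact ihn _ hlt _ s T rfl rfl (hF.mono hTF) (hD.mono hTF) fun X hX => (hTs X hX).le
      have hTn' : (supp T).card = n := le_antisymm hTn hge
      rcases Nat.lt_or_ge T.card m with hlt | hge'
      · exact ihm _ hlt s T hTn' rfl (hF.mono hTF) (hD.mono hTF) fun X hX => (hTs X hX).le
      have hTm' : T.card = m := le_antisymm hTm hge'
      by_contra hbad
      push Not at hbad
      rcases Nat.eq_zero_or_pos s with hs0 | hs1
      · subst hs0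
        have h1 := ws_zero (hD.mono hTF).ws (hF.mono hTF)
        have h2 : T.Nonempty := card_pos.1 (by omega)
        obtain ⟨X, hX⟩ := h2
        have h3 : 0 < (sh 0 T).card := card_pos.2 ⟨∅, mem_sh.2 ⟨X, hX, empty_subset _, rfl⟩⟩
        omega
      · refine H s T hs1 ⟨hF.mono hTF, hD.mono hTF, hTs, hbad, ?_, ?_⟩
        · intro t G h1 h2 h3 h4
          exact ihn _ (hTn' ▸ h4) _ t G rfl rfl h1 h2 h3
        · intro G h1 h2 h3 h4 h5
          rcases Nat.lt_or_ge (supp G).card n with h6 | h6
          · exact ihn _ h6 _ s G rfl rfl h1 h2 h3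
          · exact ihm _ (hTm' ▸ h5) s G (le_antisymm (hTn' ▸ h4) h6) rfl h1 h2 h3

/-- (SH) in diameter form on `V` gives TOP in diameter form on `V` -/
theorem topd_of_shd {V : Finset α} {s : ℕ} (h2 : 2 * s ≤ V.card)
    (h : ∀ F : Finset (Finset α), AC F → Ds s F → (∀ X ∈ F, s ≤ X.card) →
      F.card ≤ (sh s F).card)
    (F : Finset (Finset α)) (hV : On V F) (hF : AC F) (hD : Ds s F) :
    F.card ≤ V.card.choose s := by
  set T := F.filter fun X => s < X.card with hT
  set L := F.filter fun X => ¬ s < X.card with hL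
  have hcard : F.card = T.card + L.card := (card_filter_add_card_filter_not _).symm
  have hTV : On V T := fun X hX => hV X (mem_filter.1 hX).1
  have h3 := h T (hF.mono (filter_subset _ _)) (hD.mono (filter_subset _ _))
    fun X hX => (mem_filter.1 hX).2.le
  have h4 := push h2 (A := L) (K := sh s T) (fun X hX => hV X (mem_filter.1 hX).1)
    (hF.mono (filter_subset _ _)) (fun X hX => by have := (mem_filter.1 hX).2; omega)
    (sh_subset hTV) (by
      intro X hX S hS hXS
      obtain ⟨Y, hY, hSY, hSc⟩ := mem_sh.1 hS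
      have hYs := (mem_filter.1 hY).2
      have hXs := (mem_filter.1 hX).2
      have hne : X ≠ Y := by rintro rfl; exact hXs hYs
      exact hF (mem_filter.1 hX).1 (mem_filter.1 hY).1 hne (hXS.trans hSY))
  omega

/-- Ending: no minimal counterexample in diameter form ⟹ S12353 (both parities). -/
theorem frozen_of_minD
    (H : ∀ (n s : ℕ) (F : Finset (Finset (Fin n))), 1 ≤ s → MinD s F → False) :
    ∀ n k : ℕ, 1 ≤ k → k ≤ n →
      ∀ F : Finset (Finset (Fin n)),
        IsAntichain (· ⊆ ·) (F : Set (Finset (Fin n))) →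
        (∀ A ∈ F, ∀ B ∈ F, (symmDiff A B).card ≤ n - k) →
        F.card ≤ n.choose ((n + k + 1) / 2) := by
  intro n k hk hkn F hF hD
  set s := (n - k) / 2 with hs
  have h1 : (n + k + 1) / 2 = n - s := by omega
  have h2 : s ≤ n := by omega
  rw [h1, Nat.choose_symm h2]
  have h5 := topd_of_shd (V := (univ : Finset (Fin n))) (s := s) (by
    rw [card_univ, Fintype.card_fin]; omega)
    (fun G hG1 hG2 hG3 => shd_of_min (fun s F hs hm => H n s F hs hm) s G hG1 hG2 hG3)
    F (fun X _ => subset_univ X) hF (fun X hX Y hY => by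
      have h3 := hD X hX Y hY
      omega)
  rwa [card_univ, Fintype.card_fin] at h5

/-- (FS_D) + weak (MID_D) for minimal counterexamples ⟹ S12353. -/
theorem frozen_of_fs_mid
    (FS : ∀ (n s : ℕ) (F : Finset (Finset (Fin n))), 1 ≤ s → MinD s F →
      sh s F = (supp F).powersetCard s)
    (MID : ∀ (n s : ℕ) (F : Finset (Finset (Fin n))), 1 ≤ s → MinD s F →
      (∀ X ∈ F, s < X.card ∧ X.card + s < (supp F).card) →
      F.card ≤ (supp F).card.choose s) :
    ∀ n k : ℕ, 1 ≤ k → k ≤ n →
      ∀ F : Finset (Finset (Fin n)),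
        IsAntichain (· ⊆ ·) (F : Set (Finset (Fin n))) →
        (∀ A ∈ F, ∀ B ∈ F, (symmDiff A B).card ≤ n - k) →
        F.card ≤ n.choose ((n + k + 1) / 2) := by
  apply frozen_of_minD
  intro n s F hs hm
  have hfs := FS n s F hs hm
  have hcore := hm.core hfs
  have h1 := MID n s F hs hm fun X hX => ⟨hm.size X hX, hcore X hX⟩
  have h2 := hm.bad
  rw [hfs, card_powersetCard] at h2
  omega

end SHK
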