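import Mathlib

/-!
# Common definitions of cell E (f155e9): (W)_s antichains, TOP, (SH), covers

* `AC F`: antichain; `Ws s F`: any two members have `|X \ Y| ≤ s` or `|Y \ X| ≤ s`.
* `On V F`: all members are subsets of `V`.
* `TOP α n s`: every `(W)_s` antichain of subsets of an `n`-set has at most `C(n,s)` members
  (any sizes; to be used for `2 s ≤ n`).
* `sh s F`: the `s`-subsets of members; `kx s x F`: number of those through `x`.
* `SH α`: `|F| ≤ |sh s F|` for `(W)_s` antichains with all sizes `≥ s`.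
* `Cover x F C`: `C` meets every pair `A \ B = {x}` of members; `Mat x F m`: every matching of
  such pairs has at most `m` pairs.
* `er x F`: the family with `x` erased from every member; `F1 x F` (link), `F0 x F` (deletion).
* `LD s F`: union of the long differences.
-/

set_option autoImplicit false

open Finset

namespace SHK

variable {α : Type*} [DecidableEq α]

/-- antichain -/
def AC (F : Finset (Finset α)) : Prop := IsAntichain (· ⊆ ·) (F : Set (Finset α))

/-- skew distance at most `s` -/
def Ws (s : ℕ) (F : Finset (Finset α)) : Prop :=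
  ∀ X ∈ F, ∀ Y ∈ F, (X \ Y).card ≤ s ∨ (Y \ X).card ≤ s

/-- all members inside `V` -/
def On (V : Finset α) (F : Finset (Finset α)) : Prop := ∀ X ∈ F, X ⊆ V

/-- `s`-subsets of members -/
def sh (s : ℕ) (F : Finset (Finset α)) : Finset (Finset α) :=
  F.biUnion fun X => X.powersetCard s

/-- number of `s`-subsets of members through `x` -/
def kx (s : ℕ) (x : α) (F : Finset (Finset α)) : ℕ :=
  ((sh s F).filter fun S => x ∈ S).card

/-- support -/
def supp (F : Finset (Finset α)) : Finset α := F.sup id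

/-- the family with the point `x` erased -/
def er (x : α) (F : Finset (Finset α)) : Finset (Finset α) := F.image fun X => X.erase x

/-- link of `x` -/
def F1 (x : α) (F : Finset (Finset α)) : Finset (Finset α) :=
  (F.filter fun X => x ∈ X).image fun X => X.erase x

/-- members without `x` -/
def F0 (x : α) (F : Finset (Finset α)) : Finset (Finset α) := F.filter fun X => x ∉ X

/-- `C` meets every pair `A \ B = {x}` of members -/
def Cover (x : α) (F C : Finset (Finset α)) : Prop :=
  ∀ A ∈ F, ∀ B ∈ F, A ∉ C → B ∉ C → A \ B ≠ {x}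

/-- every matching of pairs `A \ B = {x}` of members has at most `m` pairs -/
def Mat (x : α) (F : Finset (Finset α)) (m : ℕ) : Prop :=
  ∀ P : Finset (Finset α × Finset α),
    (∀ p ∈ P, p.1 ∈ F ∧ p.2 ∈ F ∧ p.1 \ p.2 = {x}) →
    Set.InjOn Prod.fst (P : Set (Finset α × Finset α)) →
    Set.InjOn Prod.snd (P : Set (Finset α × Finset α)) → P.card ≤ m

/-- union of the long differences -/
def LD (s : ℕ) (F : Finset (Finset α)) : Finset α :=
  F.biUnion fun P => F.biUnion fun Q => if s < (P \ Q).card then P \ Q else ∅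

/-- TOP -/
def TOP (α : Type*) [DecidableEq α] (n s : ℕ) : Prop :=
  ∀ (V : Finset α) (F : Finset (Finset α)), V.card = n → On V F → AC F → Ws s F →
    F.card ≤ n.choose s

/-- (SH) for all families -/
def SH (α : Type*) [DecidableEq α] : Prop :=
  ∀ (s : ℕ) (F : Finset (Finset α)), Ws s F → AC F →
    (∀ X ∈ F, s ≤ X.card) → F.card ≤ (sh s F).card

theorem mem_sh {s : ℕ} {F : Finset (Finset α)} {S : Finset α} :
    S ∈ sh s F ↔ ∃ X ∈ F, S ⊆ X ∧ S.card = s := by
  simp [sh, mem_powersetCard]

theorem mem_supp {F : Finset (Finset α)} {x : α} : x ∈ supp F ↔ ∃ X ∈ F, x ∈ X := by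
  simp [supp, Finset.mem_sup]

theorem mem_F0 {F : Finset (Finset α)} {x : α} {X : Finset α} : X ∈ F0 x F ↔ X ∈ F ∧ x ∉ X := by
  simp [F0]

theorem mem_F1 {F : Finset (Finset α)} {x : α} {Y : Finset α} :
    Y ∈ F1 x F ↔ x ∉ Y ∧ insert x Y ∈ F := by
  simp only [F1, mem_image, mem_filter]
  constructor
  · rintro ⟨X, ⟨hX, hx⟩, rfl⟩
    exact ⟨notMem_erase x X, by rwa [insert_erase hx]⟩
  · rintro ⟨hx, h⟩
    exact ⟨insert x Y, ⟨h, mem_insert_self x Y⟩, erase_insert hx⟩

theorem mem_LD {s : ℕ} {F : Finset (Finset α)} {z : α} :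
    z ∈ LD s F ↔ ∃ P ∈ F, ∃ Q ∈ F, s < (P \ Q).card ∧ z ∈ P \ Q := by
  simp only [LD, mem_biUnion]
  constructor
  · rintro ⟨P, hP, Q, hQ, h⟩
    split_ifs at h with h1
    · exact ⟨P, hP, Q, hQ, h1, h⟩
    · simp at h
  · rintro ⟨P, hP, Q, hQ, h1, h⟩
    exact ⟨P, hP, Q, hQ, by rw [if_pos h1]; exact h⟩

theorem AC.mono {F G : Finset (Finset α)} (h : AC F) (hG : G ⊆ F) : AC G :=
  IsAntichain.subset h (by exact_mod_cast hG)

theorem Ws.mono {s : ℕ} {F G : Finset (Finset α)} (h : Ws s F) (hG : G ⊆ F) : Ws s G :=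
  fun X hX Y hY => h X (hG hX) Y (hG hY)

theorem sh_mono {s : ℕ} {F G : Finset (Finset α)} (hG : G ⊆ F) : sh s G ⊆ sh s F :=
  Finset.biUnion_subset_biUnion_of_subset_left _ hG

theorem card_F1_add_card_F0 {F : Finset (Finset α)} (x : α) :
    (F1 x F).card + (F0 x F).card = F.card := by
  have h : (F1 x F).card = (F.filter fun X => x ∈ X).card := by
    apply card_image_of_injOn
    intro X hX Y hY h
    have hX' := (mem_filter.1 (mem_coe.1 hX)).2
    have hY' := (mem_filter.1 (mem_coe.1 hY)).2
    have : insert x (X.erase x) = insert x (Y.erase x) := congrArg (insert x) h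
    rwa [insert_erase hX', insert_erase hY'] at this
  rw [h]
  exact card_filter_add_card_filter_not _

end SHK
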