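import Pool.Agent.SHK.ZLemma

/-!
# Critical families: (FS) full shadow + (HV) H-vertex (or a leader) ⟹ (SH) ⟹ S12353

`Crit s F`: `F` violates (SH), no proper subfamily does.
(FS): `sh s F` consists of all `s`-subsets of the support.
(HV): for some covered point `x` the members avoiding `x` form a `(W)_(s-1)` family.
-/

set_option autoImplicit false

open Finset

namespace SHK

variable {α : Type*} [DecidableEq α]

/-- minimal violation of (SH) -/
def Crit (s : ℕ) (F : Finset (Finset α)) : Prop :=
  (sh s F).card < F.card ∧ ∀ B ⊂ F, B.card ≤ (sh s B).card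

/-- `e(B) < e(F)` for all nonempty proper subfamilies -/
def Irr (s : ℕ) (F : Finset (Finset α)) : Prop :=
  ∀ B ⊂ F, B.Nonempty → B.card + (sh s F).card < F.card + (sh s B).card

theorem Crit.irr {s : ℕ} {F : Finset (Finset α)} (h : Crit s F) : Irr s F := by
  intro B hB _
  have h1 := h.1
  have h2 := h.2 B hB
  omega

theorem exists_crit {s : ℕ} {F : Finset (Finset α)} (h : (sh s F).card < F.card) :
    ∃ B ⊆ F, Crit s B := by
  classical
  induction F using Finset.strongInduction with
  | _ F ih =>
    by_cases h2 : ∀ B ⊂ F, B.card ≤ (sh s B).card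
    · exact ⟨F, Subset.refl F, h, h2⟩
    · push Not at h2
      obtain ⟨B, hB, hlt⟩ := h2
      obtain ⟨C, hC, hcrit⟩ := ih B hB hlt
      exact ⟨C, hC.trans hB.1, hcrit⟩

theorem supp_mono {F G : Finset (Finset α)} (h : G ⊆ F) : supp G ⊆ supp F := by
  intro z hz
  obtain ⟨X, hX, hzX⟩ := mem_supp.1 hz
  exact mem_supp.2 ⟨X, h hX, hzX⟩

theorem on_supp (F : Finset (Finset α)) : On (supp F) F :=
  fun X hX _ hz => mem_supp.2 ⟨X, hX, hz⟩

theorem supp_card_lt {F G : Finset (Finset α)} {x : α} (hx : x ∈ supp F)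
    (h : On ((supp F).erase x) G) : (supp G).card < (supp F).card := by
  apply card_lt_card
  rw [ssubset_iff_of_subset]
  · refine ⟨x, hx, fun hxG => ?_⟩
    obtain ⟨X, hX, hxX⟩ := mem_supp.1 hxG
    exact notMem_erase x _ (h X hX hxX)
  · intro z hz
    obtain ⟨X, hX, hzX⟩ := mem_supp.1 hz
    exact mem_of_mem_erase (h X hX hzX)

theorem card_sh_le {V : Finset α} {s : ℕ} {F : Finset (Finset α)} (hV : On V F) :
    (sh s F).card ≤ V.card.choose s := by
  have h := card_le_card (sh_subset (s := s) hV)
  rwa [card_powersetCard] at h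

/-- MAIN: every critical family has full shadow and an H-vertex, or a leader. Then (SH). -/
theorem sh_of_crit
    (H : ∀ (s : ℕ) (F : Finset (Finset α)), 1 ≤ s → Ws s F → AC F → (∀ X ∈ F, s < X.card) →
      Crit s F →
      (sh s F = (supp F).powersetCard s ∧ ∃ x ∈ supp F, Ws (s - 1) (F0 x F)) ∨ Leader s F) :
    SH α := by
  suffices key : ∀ (m s : ℕ) (F : Finset (Finset α)), (supp F).card ≤ m → Ws s F → AC F →
      (∀ X ∈ F, s ≤ X.card) → F.card ≤ (sh s F).card from
    fun s F hW hF hs => key _ s F le_rfl hW hF hs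
  intro m
  induction m using Nat.strong_induction_on with
  | _ m ih =>
    intro s F hm hW hF hs
    apply split_level hF hs
    set T := F.filter fun X => s < X.card with hT
    have hTW : Ws s T := hW.mono (filter_subset _ _)
    have hTF : AC T := hF.mono (filter_subset _ _)
    have hTs : ∀ X ∈ T, s < X.card := fun X hX => (mem_filter.1 hX).2
    rcases Nat.eq_zero_or_pos s with hs0 | hs1
    · rcases T.eq_empty_or_nonempty with hT0 | hTn
      · rw [hT0]; simp
      · subst hs0
        refine (ws_zero hTW hTF).trans ?_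
        rw [Nat.succ_le_iff, card_pos]
        obtain ⟨X, hX⟩ := hTn
        exact ⟨∅, mem_sh.2 ⟨X, hX, empty_subset _, rfl⟩⟩
    by_contra hlt
    push Not at hlt
    obtain ⟨B, hBT, hB⟩ := exists_crit hlt
    have hBW : Ws s B := hTW.mono hBT
    have hBF : AC B := hTF.mono hBT
    have hBs : ∀ X ∈ B, s < X.card := fun X hX => hTs X (hBT hX)
    have hBm : (supp B).card ≤ m :=
      (card_le_card (supp_mono (hBT.trans (filter_subset _ _)))).trans hm
    rcases H s B hs1 hBW hBF hBs hB with ⟨hfs, x, hx, hx0⟩ | ⟨x, hx, C, hCB, hCk, hC⟩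
    · -- full shadow and an H-vertex
      have h0 : On ((supp B).erase x) (F0 x B) := (on_supp B).F0 x
      have h1 : On ((supp B).erase x) (F1 x B) := (on_supp B).F1 x
      have hc : ((supp B).erase x).card = (supp B).card - 1 := card_erase_of_mem hx
      have hpos : 0 < (supp B).card := card_pos.2 ⟨x, hx⟩
      have i0 := ih _ (lt_of_lt_of_le (supp_card_lt hx h0) hBm) (s - 1) (F0 x B) le_rfl hx0
        (hBF.F0 x) fun X hX => by
          have := hBs X (mem_F0.1 hX).1
          omega
      have i1 := ih _ (lt_of_lt_of_le (supp_card_lt hx h1) hBm) s (F1 x B) le_rfl (hBW.F1 x)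
        (hBF.F1 x) fun X hX => by
          obtain ⟨h2, h3⟩ := mem_F1.1 hX
          have h4 := hBs _ h3
          rw [card_insert_of_notMem h2] at h4
          omega
      have j0 := card_sh_le (s := s - 1) h0
      have j1 := card_sh_le (s := s) h1
      have h5 := card_F1_add_card_F0 (F := B) x
      have h6 : (sh s B).card = (supp B).card.choose s := by rw [hfs, card_powersetCard]
      have h7 := hB.1
      obtain ⟨t, rfl⟩ : ∃ t, s = t + 1 := ⟨s - 1, by omega⟩
      obtain ⟨p, hp⟩ : ∃ p, (supp B).card = p + 1 := ⟨(supp B).card - 1, by omega⟩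
      rw [hp, Nat.choose_succ_succ] at h6
      rw [hc, hp] at j0 j1
      simp only [Nat.add_sub_cancel] at j0 j1 i0
      simp only [Nat.succ_eq_add_one] at h6
      omega
    · -- leader
      have h0 : On ((supp B).erase x) (er x (B \ C)) := by
        intro A hA
        simp only [er, mem_image, mem_sdiff] at hA
        obtain ⟨X, ⟨hX, -⟩, rfl⟩ := hA
        exact erase_subset_erase x (on_supp B X hX)
      have h := ih _ (lt_of_lt_of_le (supp_card_lt hx h0) hBm) s (er x (B \ C)) le_rfl
        (er_Ws (hBW.mono sdiff_subset) x) (er_antichain hBF hC) ?_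
      · exact absurd (step hBF hC hCB hCk h) (not_le.2 hB.1)
      · intro A hA
        simp only [er, mem_image, mem_sdiff] at hA
        obtain ⟨X, ⟨hX, -⟩, rfl⟩ := hA
        have := hBs X hX
        have := pred_card_le_card_erase (s := X) (a := x)
        omega

/-- (FS) and (HV) for critical families give the frozen statement S12353 (both parities). -/
theorem frozen_of_fs_hv
    (FS : ∀ (n s : ℕ) (F : Finset (Finset (Fin n))), 1 ≤ s → Ws s F → AC F →
      (∀ X ∈ F, s < X.card) → Crit s F → sh s F = (supp F).powersetCard s)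
    (HV : ∀ (n s : ℕ) (F : Finset (Finset (Fin n))), 1 ≤ s → Ws s F → AC F →
      (∀ X ∈ F, s < X.card) → Crit s F → ∃ x ∈ supp F, Ws (s - 1) (F0 x F)) :
    ∀ n k : ℕ, 1 ≤ k → k ≤ n →
      ∀ F : Finset (Finset (Fin n)),
        IsAntichain (· ⊆ ·) (F : Set (Finset (Fin n))) →
        (∀ A ∈ F, ∀ B ∈ F, (symmDiff A B).card ≤ n - k) →
        F.card ≤ n.choose ((n + k + 1) / 2) :=
  frozen_of_sh fun n => sh_of_crit fun s F hs hW hF hF' hC =>
    Or.inl ⟨FS n s F hs hW hF hF' hC, HV n s F hs hW hF hF' hC⟩

end SHK
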