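import Pool.Agent.SHK.DForm
import Pool.Agent.EH11.Sections

/-!
# (GW), the unbalanced coordinate, and (GOOD), the one-point form, give S12353

`gw_top`: if every antichain `F` on `V` (`|V| > 2 s + 1`, `s ≥ 1`, diameter `≤ 2 s + 1`,
`|F| > C(|V|, s)`) has a point `x` with at most `C(|V| - 1, s - 1)` members through `x` or at most
so many members avoiding `x`, then every antichain of diameter `≤ 2 s + 1` on `V`,
`|V| ≥ 2 s + 1`, has at most `C(|V|, s)` members. `frozen_of_gw`: the same for `S12353`.
-/

set_option autoImplicit false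

open Finset

namespace SHK

variable {α : Type*} [DecidableEq α]

theorem sperner_V {V : Finset α} {F : Finset (Finset α)} (hV : On V F) (hF : AC F) :
    F.card ≤ V.card.choose (V.card / 2) :=
  Pool.Agent.EH11.sperner_on (fun X hX => hV X hX)
    (Pool.Agent.EH11.AC.of_isAntichain hF)

theorem card_F1 {F : Finset (Finset α)} {x : α} :
    (F1 x F).card = (F.filter fun X => x ∈ X).card := by
  apply card_image_of_injOn
  intro X hX Y hY h
  have hX' : x ∈ X := (mem_filter.1 hX).2
  have hY' : x ∈ Y := (mem_filter.1 hY).2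
  have h' : X.erase x = Y.erase x := h
  rw [← insert_erase hX', ← insert_erase hY', h']

theorem ac_F1 {F : Finset (Finset α)} {x : α} (hF : AC F) : AC (F1 x F) := by
  intro A hA B hB hne hsub
  rw [mem_coe, mem_F1] at hA hB
  exact hF hA.2 hB.2 (fun h => hne (by
    rw [← erase_insert hA.1, ← erase_insert hB.1, h])) (insert_subset_insert x hsub)

theorem ac_F0 {F : Finset (Finset α)} {x : α} (hF : AC F) : AC (F0 x F) :=
  hF.mono (filter_subset _ _)

theorem ds_F0 {s : ℕ} {F : Finset (Finset α)} {x : α} (hF : Ds s F) : Ds s (F0 x F) :=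
  hF.mono (filter_subset _ _)

theorem ds_F1 {s : ℕ} {F : Finset (Finset α)} {x : α} (hF : Ds s F) : Ds s (F1 x F) := by
  intro A hA B hB
  rw [mem_F1] at hA hB
  have h := hF _ hA.2 _ hB.2
  rw [card_symmDiff'] at h ⊢
  rw [insert_sdiff_insert, insert_sdiff_insert,
    sdiff_insert_of_notMem hA.1, sdiff_insert_of_notMem hB.1] at h
  exact h

theorem on_F0 {V : Finset α} {F : Finset (Finset α)} {x : α} (hV : On V F) :
    On (V.erase x) (F0 x F) := by
  intro X hX z hz
  rw [mem_F0] at hX
  exact mem_erase.2 ⟨fun h => hX.2 (h ▸ hz), hV X hX.1 hz⟩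

theorem on_F1 {V : Finset α} {F : Finset (Finset α)} {x : α} (hV : On V F) :
    On (V.erase x) (F1 x F) := by
  intro X hX z hz
  rw [mem_F1] at hX
  exact mem_erase.2 ⟨fun h => hX.1 (h ▸ hz), hV _ hX.2 (mem_insert_of_mem hz)⟩

theorem card_F0_F1 {F : Finset (Finset α)} {x : α} :
    (F1 x F).card + (F0 x F).card = F.card := by
  rw [card_F1, F0]
  exact card_filter_add_card_filter_not _

/-- (GW) for violating families gives the bound `C(|V|, s)` -/
theorem gw_top
    (H : ∀ (V : Finset α) (s : ℕ) (F : Finset (Finset α)), 1 ≤ s → 2 * s + 1 < V.card → On V F →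
      AC F → Ds s F → V.card.choose s < F.card →
      ∃ x ∈ V, (F1 x F).card ≤ (V.card - 1).choose (s - 1) ∨
        (F0 x F).card ≤ (V.card - 1).choose (s - 1)) :
    ∀ (V : Finset α) (s : ℕ) (F : Finset (Finset α)), 2 * s + 1 ≤ V.card → On V F → AC F →
      Ds s F → F.card ≤ V.card.choose s := by
  suffices key : ∀ (n : ℕ) (V : Finset α) (s : ℕ) (F : Finset (Finset α)), V.card = n →
      2 * s + 1 ≤ V.card → On V F → AC F → Ds s F → F.card ≤ V.card.choose s from
    fun V s F => key _ V s F rfl
  intro n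
  induction n with
  | zero => intro V s F hn h; omega
  | succ n ih =>
    intro V s F hn h2 hV hF hD
    rcases Nat.eq_zero_or_pos s with hs0 | hs1
    · subst hs0
      rw [Nat.choose_zero_right]
      exact ws_zero hD.ws hF
    rcases Nat.lt_or_ge (2 * s + 1) V.card with hlt | hge
    · by_contra hcon
      rw [not_le] at hcon
      obtain ⟨x, hxV, hx⟩ := H V s F hs1 hlt hV hF hD hcon
      have hc : (V.erase x).card = n := by rw [card_erase_of_mem hxV]; omega
      have h0 := ih (V.erase x) s (F0 x F) hc (by omega) (on_F0 hV) (ac_F0 hF) (ds_F0 hD)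
      have h1 := ih (V.erase x) s (F1 x F) hc (by omega) (on_F1 hV) (ac_F1 hF) (ds_F1 hD)
      have h3 := card_F0_F1 (F := F) (x := x)
      rw [hc] at h0 h1
      have h4 : V.card - 1 = n := by omega
      rw [h4] at hx
      rw [hn] at hcon
      have h5 : (n + 1).choose s = n.choose (s - 1) + n.choose s := by
        obtain ⟨t, rfl⟩ : ∃ t, s = t + 1 := ⟨s - 1, by omega⟩
        rw [Nat.choose_succ_succ]; rfl
      omega
    · have h6 : V.card / 2 = s := by omega
      have h7 := sperner_V hV hF
      rwa [h6] at h7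

/-- Ending: (GW) for violating families on `Fin n` ⟹ S12353 (both parities). -/
theorem frozen_of_gw
    (H : ∀ (n : ℕ) (V : Finset (Fin n)) (s : ℕ) (F : Finset (Finset (Fin n))), 1 ≤ s →
      2 * s + 1 < V.card → On V F → AC F → Ds s F → V.card.choose s < F.card →
      ∃ x ∈ V, (F1 x F).card ≤ (V.card - 1).choose (s - 1) ∨
        (F0 x F).card ≤ (V.card - 1).choose (s - 1)) :
    ∀ n k : ℕ, 1 ≤ k → k ≤ n →
      ∀ F : Finset (Finset (Fin n)),
        IsAntichain (· ⊆ ·) (F : Set (Finset (Fin n))) →
        (∀ A ∈ F, ∀ B ∈ F, (symmDiff A B).card ≤ n - k) →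
        F.card ≤ n.choose ((n + k + 1) / 2) := by
  intro n k hk hkn F hF hD
  set s := (n - k) / 2 with hs
  have h1 : (n + k + 1) / 2 = n - s := by omega
  have h2 : s ≤ n := by omega
  rw [h1, Nat.choose_symm h2]
  have h5 := gw_top (H n) (univ : Finset (Fin n)) s F (by
      rw [card_univ, Fintype.card_fin]; omega) (fun X _ => subset_univ X) hF (fun X hX Y hY => by
      have h3 := hD X hX Y hY
      omega)
  rwa [card_univ, Fintype.card_fin] at h5

end SHK
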