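import Pool.Agent.SHK.Base

/-!
# Kőnig's theorem in the form used here: `Mat x F m` gives a cover with at most `m` members
-/

set_option autoImplicit false

open Finset

namespace SHK

/-- Kőnig for a finite bipartite relation given by neighbourhoods. -/
theorem konig_aux {β γ : Type*} [DecidableEq β] [DecidableEq γ] (A : Finset β)
    (N : β → Finset γ) (m : ℕ)
    (h : ∀ P : Finset (β × γ), (∀ p ∈ P, p.1 ∈ A ∧ p.2 ∈ N p.1) →
      Set.InjOn Prod.fst (P : Set (β × γ)) → Set.InjOn Prod.snd (P : Set (β × γ)) → P.card ≤ m) :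
    ∃ S ⊆ A, (A \ S).card + (S.biUnion N).card ≤ m := by
  classical
  obtain ⟨S, hS, hmax⟩ := exists_max_image A.powerset
    (fun S : Finset β => (S.card : ℤ) - (S.biUnion N).card) ⟨∅, empty_mem_powerset A⟩
  rw [mem_powerset] at hS
  refine ⟨S, hS, ?_⟩
  have hd0 : (S.biUnion N).card ≤ S.card := by
    have := hmax ∅ (empty_mem_powerset A)
    simp only [card_empty, biUnion_empty] at this
    omega
  set d : ℕ := S.card - (S.biUnion N).card with hd
  let t : {a // a ∈ A} → Finset (γ ⊕ Fin d) := fun a => (N a.1).disjSum (univ : Finset (Fin d))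
  have hall : ∀ T : Finset {a // a ∈ A}, T.card ≤ (T.biUnion t).card := by
    intro T
    rcases T.eq_empty_or_nonempty with rfl | hT
    · simp
    have h1 : (T.biUnion t) = ((T.map (Function.Embedding.subtype _)).biUnion N).disjSum
        (univ : Finset (Fin d)) := by
      ext z
      simp only [mem_biUnion, t, mem_disjSum, mem_map, mem_univ, true_and,
        Function.Embedding.subtype_apply]
      constructor
      · rintro ⟨a, ha, h | h⟩
        · left
          obtain ⟨c, hc, rfl⟩ := h
          exact ⟨c, ⟨a.1, ⟨a, ha, rfl⟩, hc⟩, rfl⟩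
        · exact Or.inr h
      · rintro (h | h)
        · obtain ⟨c, ⟨b, ⟨a, ha, rfl⟩, hc⟩, rfl⟩ := h
          exact ⟨a, ha, Or.inl ⟨c, hc, rfl⟩⟩
        · obtain ⟨a, ha⟩ := hT
          exact ⟨a, ha, Or.inr h⟩
    rw [h1, card_disjSum, card_univ, Fintype.card_fin]
    have h2 := hmax (T.map (Function.Embedding.subtype _)) (by
      rw [mem_powerset]
      intro b hb
      simp only [mem_map, Function.Embedding.subtype_apply] at hb
      obtain ⟨a, -, rfl⟩ := hb
      exact a.2)
    simp only [card_map] at h2
    omega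
  obtain ⟨f, hf, hft⟩ := (Finset.all_card_le_biUnion_card_iff_exists_injective t).1 hall
  -- the matching
  let B : Finset {a // a ∈ A} := univ.filter fun a => (f a).isLeft = true
  let P : Finset (β × γ) := (B.attach.image fun a => (a.1.1, (f a.1).getLeft
    (by have := a.2; simp only [B, mem_filter] at this; exact this.2)))
  have hP : ∀ p ∈ P, ∃ a : {a // a ∈ A}, f a = Sum.inl p.2 ∧ p.1 = a.1 := by
    intro p hp
    simp only [P, mem_image, mem_attach, true_and] at hp
    obtain ⟨a, rfl⟩ := hp
    refine ⟨a.1, ?_, rfl⟩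
    exact (Sum.inl_getLeft _ _).symm
  have hPc : P.card = B.card := by
    rw [card_image_of_injOn, card_attach]
    intro a _ b _ hab
    simp only [Prod.mk.injEq] at hab
    exact Subtype.ext (Subtype.ext hab.1)
  have hle := h P (fun p hp => by
      obtain ⟨a, ha, h1⟩ := hP p hp
      have := hft a
      rw [ha] at this
      simp only [t, inl_mem_disjSum] at this
      exact ⟨h1 ▸ a.2, h1 ▸ this⟩)
    (by
      intro p hp q hq hpq
      obtain ⟨a, ha, h1⟩ := hP p hp
      obtain ⟨b, hb, h2⟩ := hP q hq
      have hab : a = b := Subtype.ext (by rw [← h1, ← h2]; exact hpq)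
      subst hab
      rw [ha] at hb
      exact Prod.ext hpq (Sum.inl_injective hb))
    (by
      intro p hp q hq hpq
      obtain ⟨a, ha, h1⟩ := hP p hp
      obtain ⟨b, hb, h2⟩ := hP q hq
      have hab : a = b := hf (by rw [ha, hb]; exact congrArg Sum.inl hpq)
      subst hab
      exact Prod.ext (h1.trans h2.symm) hpq)
  -- at most d vertices are matched to dummies
  have hB : A.card ≤ B.card + d := by
    have h1 : (univ : Finset {a // a ∈ A}).card = B.card + (univ.filter fun a =>
        ¬ (f a).isLeft = true).card := (card_filter_add_card_filter_not _).symm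
    have h2 : (univ.filter fun a : {a // a ∈ A} => ¬ (f a).isLeft = true).card ≤
        ((univ : Finset (Fin d)).image (fun i => (Sum.inr i : γ ⊕ Fin d))).card := by
      apply card_le_card_of_injOn f
      · intro a ha
        simp only [coe_filter, mem_univ, true_and, Set.mem_setOf_eq] at ha
        simp only [coe_image, coe_univ, Set.image_univ, Set.mem_range]
        rcases hfa : f a with c | i
        · rw [hfa] at ha; simp at ha
        · exact ⟨i, rfl⟩
      · exact hf.injOn
    have h3 : ((univ : Finset (Fin d)).image (fun i => (Sum.inr i : γ ⊕ Fin d))).card ≤ d :=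
      card_image_le.trans (by simp)
    have h4 : (univ : Finset {a // a ∈ A}).card = A.card := by simp
    omega
  have h5 : (A \ S).card + S.card = A.card := card_sdiff_add_card_eq_card hS
  omega

variable {α : Type*} [DecidableEq α]

/-- Kőnig: no matching with more than `m` pairs gives a cover with at most `m` members. -/
theorem cover_of_mat {x : α} {F : Finset (Finset α)} {m : ℕ} (h : Mat x F m) :
    ∃ C ⊆ F, C.card ≤ m ∧ Cover x F C := by
  obtain ⟨S, hS, hc⟩ := konig_aux F (fun A => F.filter fun B => A \ B = {x}) m (by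
    intro P hP h1 h2
    refine h P (fun p hp => ?_) h1 h2
    have := hP p hp
    rw [mem_filter] at this
    exact ⟨this.1, this.2.1, this.2.2⟩)
  refine ⟨(F \ S) ∪ S.biUnion (fun A => F.filter fun B => A \ B = {x}), ?_, ?_, ?_⟩
  · apply union_subset sdiff_subset
    intro B hB
    rw [mem_biUnion] at hB
    obtain ⟨A, -, hB⟩ := hB
    exact (mem_filter.1 hB).1
  · exact (card_union_le _ _).trans hc
  · intro A hA B hB hAC hBC hAB
    rw [mem_union, not_or] at hAC hBC
    have hAS : A ∈ S := by
      by_contra hn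
      exact hAC.1 (mem_sdiff.2 ⟨hA, hn⟩)
    exact hBC.2 (mem_biUnion.2 ⟨A, hAS, mem_filter.2 ⟨hB, hAB⟩⟩)

/-- a cover bounds every matching -/
theorem mat_of_cover {x : α} {F C : Finset (Finset α)} (hC : Cover x F C) : Mat x F C.card := by
  classical
  intro P hP h1 h2
  have key : ∀ p ∈ P, p.1 ∈ C ∨ p.2 ∈ C := by
    intro p hp
    obtain ⟨ha, hb, hab⟩ := hP p hp
    by_contra hn
    rw [not_or] at hn
    exact hC p.1 ha p.2 hb hn.1 hn.2 hab
  -- send a pair to its member in `C`
  apply card_le_card_of_injOn (fun p => if p.1 ∈ C then p.1 else p.2)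
  · intro p hp
    simp only
    split_ifs with h
    · exact h
    · exact (key p hp).resolve_left h
  · intro p hp q hq hpq
    have hx : ∀ r ∈ P, x ∈ r.1 ∧ x ∉ r.2 := by
      intro r hr
      have h3 : x ∈ r.1 \ r.2 := by rw [(hP r hr).2.2]; exact mem_singleton_self x
      rw [mem_sdiff] at h3
      exact h3
    simp only at hpq
    split_ifs at hpq with ha hb hb
    · exact h1 hp hq hpq
    · exact absurd (hpq ▸ (hx p hp).1) (hx q hq).2
    · exact absurd (hpq.symm ▸ (hx q hq).1) (hx p hp).2
    · exact h2 hp hq hpq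

/-- (SHnu) for violating families gives (SH). -/
theorem sh_of_nu
    (H : ∀ (s : ℕ) (F : Finset (Finset α)), 1 ≤ s → Ws s F → AC F → F.Nonempty →
      (∀ X ∈ F, s < X.card) → (sh s F).card < F.card → ∃ x ∈ supp F, Mat x F (kx s x F)) :
    SH α := by
  apply sh_of_leader
  intro s F hs hW hF hn hc hv
  obtain ⟨x, hx, hm⟩ := H s F hs hW hF hn hc hv
  obtain ⟨C, hC, hc, hcov⟩ := cover_of_mat hm
  exact ⟨x, hx, C, hC, hc, hcov⟩

end SHK
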