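import Pool.Agent.SHK.Defs

/-!
# LYM on a finite ground set `V`, with the equality case
-/

set_option autoImplicit false

open Finset

namespace SHK

variable {α : Type*} [DecidableEq α]

theorem lym {V : Finset α} {F : Finset (Finset α)} (hV : On V F) (hF : AC F) :
    ∑ X ∈ F, ((V.card.choose X.card : ℚ))⁻¹ ≤ 1 := by
  classical
  let φ : Finset α → Finset V := fun X => X.subtype (· ∈ V)
  have hback : ∀ X ∈ F, (φ X).map (Function.Embedding.subtype (· ∈ V)) = X := by
    intro X hX
    ext a
    simp only [φ, mem_map, Finset.mem_subtype, Function.Embedding.coe_subtype, Subtype.exists,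
      exists_and_left, exists_prop]
    constructor
    · rintro ⟨b, hb, -, rfl⟩; exact hb
    · intro ha; exact ⟨a, ha, hV X hX ha, rfl⟩
  have hinj : Set.InjOn φ (F : Set (Finset α)) := by
    intro X hX Y hY h
    rw [← hback X hX, ← hback Y hY, h]
  have hcard : ∀ X ∈ F, (φ X).card = X.card := by
    intro X hX
    conv_rhs => rw [← hback X hX]
    rw [card_map]
  have hanti : IsAntichain (· ⊆ ·) (SetLike.coe (F.image φ)) := by
    intro A hA B hB hne hsub
    rw [coe_image] at hA hB
    obtain ⟨X, hX, rfl⟩ := hA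
    obtain ⟨Y, hY, rfl⟩ := hB
    have hXY : X ≠ Y := by rintro rfl; exact hne rfl
    apply hF hX hY hXY
    rw [← hback X hX, ← hback Y hY]
    exact map_subset_map.2 hsub
  have h := lubell_yamamoto_meshalkin_inequality_sum_inv_choose (𝕜 := ℚ) hanti
  rw [sum_image (fun X hX Y hY h => hinj hX hY h), Fintype.card_coe] at h
  refine le_trans (le_of_eq ?_) h
  apply sum_congr rfl
  intro X hX
  rw [hcard X hX]

/-- bound -/
theorem lym_le {V : Finset α} {F : Finset (Finset α)} (hV : On V F) (hF : AC F) {t : ℕ}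
    (ht : t ≤ V.card) (h : ∀ X ∈ F, V.card.choose X.card ≤ V.card.choose t) :
    F.card ≤ V.card.choose t := by
  have h1 := lym hV hF
  have hpos : (0 : ℚ) < V.card.choose t := by exact_mod_cast Nat.choose_pos ht
  have h2 : ∑ X ∈ F, ((V.card.choose t : ℚ))⁻¹ ≤ ∑ X ∈ F, ((V.card.choose X.card : ℚ))⁻¹ := by
    apply sum_le_sum
    intro X hX
    have h3 : 0 < V.card.choose X.card := Nat.choose_pos (card_le_card (hV X hX))
    apply inv_anti₀ (by exact_mod_cast h3)
    exact_mod_cast h X hX
  rw [sum_const, nsmul_eq_mul] at h2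
  have h4 : (F.card : ℚ) * (V.card.choose t : ℚ)⁻¹ ≤ 1 := h2.trans h1
  rw [← div_eq_mul_inv, div_le_one hpos] at h4
  exact_mod_cast h4

/-- equality -/
theorem lym_eq {V : Finset α} {F : Finset (Finset α)} (hV : On V F) (hF : AC F) {t : ℕ}
    (ht : t ≤ V.card) (h : ∀ X ∈ F, X.card ≠ t → V.card.choose X.card < V.card.choose t)
    (hc : V.card.choose t ≤ F.card) : F = V.powersetCard t := by
  have h1 := lym hV hF
  have hpos : (0 : ℚ) < V.card.choose t := by exact_mod_cast Nat.choose_pos ht
  have hle : ∀ X ∈ F, ((V.card.choose t : ℚ))⁻¹ ≤ ((V.card.choose X.card : ℚ))⁻¹ := by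
    intro X hX
    have h3 : 0 < V.card.choose X.card := Nat.choose_pos (card_le_card (hV X hX))
    apply inv_anti₀ (by exact_mod_cast h3)
    by_cases hXt : X.card = t
    · rw [hXt]
    · exact_mod_cast (h X hX hXt).le
  have hall : ∀ X ∈ F, X.card = t := by
    by_contra hcon
    push Not at hcon
    obtain ⟨X, hX, hXt⟩ := hcon
    have h2 : ∑ X ∈ F, ((V.card.choose t : ℚ))⁻¹ < ∑ X ∈ F, ((V.card.choose X.card : ℚ))⁻¹ := by
      apply sum_lt_sum hle
      refine ⟨X, hX, ?_⟩
      have h3 : 0 < V.card.choose X.card := Nat.choose_pos (card_le_card (hV X hX))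
      apply inv_strictAnti₀ (by exact_mod_cast h3)
      exact_mod_cast h X hX hXt
    rw [sum_const, nsmul_eq_mul] at h2
    have h4 : (F.card : ℚ) * (V.card.choose t : ℚ)⁻¹ < 1 := h2.trans_le h1
    rw [← div_eq_mul_inv, div_lt_one hpos] at h4
    have : F.card < V.card.choose t := by exact_mod_cast h4
    omega
  apply eq_of_subset_of_card_le
  · intro X hX
    exact mem_powersetCard.2 ⟨hV X hX, hall X hX⟩
  · rw [card_powersetCard]; exact hc

/-- strict growth of binomial coefficients below the middle -/
theorem choose_lt_of_lt {m a b : ℕ} (hab : a < b) (hb : 2 * b ≤ m) : m.choose a < m.choose b := by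
  induction b with
  | zero => omega
  | succ b ih =>
    have hstep : m.choose b < m.choose (b + 1) := by
      have h1 := Nat.choose_succ_right_eq m b
      have h2 : 0 < m.choose b := Nat.choose_pos (by omega)
      by_contra hcon
      push Not at hcon
      have h3 : m.choose (b + 1) * (b + 1) ≤ m.choose b * (b + 1) := Nat.mul_le_mul_right _ hcon
      have h4 : m.choose b * (b + 1) < m.choose b * (m - b) :=
        Nat.mul_lt_mul_of_pos_left (by omega) h2
      omega
    rcases Nat.lt_or_ge a b with h | h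
    · exact (ih h (by omega)).trans hstep
    · have : a = b := by omega
      rw [this]; exact hstep

theorem choose_le_of_le {m a b : ℕ} (hab : a ≤ b) (hb : 2 * b ≤ m) : m.choose a ≤ m.choose b := by
  rcases hab.lt_or_eq with h | h
  · exact (choose_lt_of_lt h hb).le
  · rw [h]

/-- antichain of sets of size at most `t`, `2 t ≤ |V|` -/
theorem small_le {V : Finset α} {F : Finset (Finset α)} (hV : On V F) (hF : AC F) {t : ℕ}
    (ht : 2 * t ≤ V.card) (h : ∀ X ∈ F, X.card ≤ t) : F.card ≤ V.card.choose t :=
  lym_le hV hF (by omega) fun X hX => choose_le_of_le (h X hX) ht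

theorem small_eq {V : Finset α} {F : Finset (Finset α)} (hV : On V F) (hF : AC F) {t : ℕ}
    (ht : 2 * t ≤ V.card) (h : ∀ X ∈ F, X.card ≤ t) (hc : V.card.choose t ≤ F.card) :
    F = V.powersetCard t :=
  lym_eq hV hF (by omega) (fun X hX hne => choose_lt_of_lt (lt_of_le_of_ne (h X hX) hne) ht) hc

/-- antichain of sets of co-size at most `t`, `2 t ≤ |V|` -/
theorem large_le {V : Finset α} {F : Finset (Finset α)} (hV : On V F) (hF : AC F) {t : ℕ}
    (ht : 2 * t ≤ V.card) (h : ∀ X ∈ F, (V \ X).card ≤ t) : F.card ≤ V.card.choose t := by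
  apply lym_le hV hF (by omega)
  intro X hX
  have h1 := h X hX
  have h2 := card_le_card (hV X hX)
  rw [card_sdiff_of_subset (hV X hX)] at h1
  rw [← Nat.choose_symm h2]
  exact choose_le_of_le h1 ht

theorem large_eq {V : Finset α} {F : Finset (Finset α)} (hV : On V F) (hF : AC F) {t : ℕ}
    (ht : 2 * t ≤ V.card) (h : ∀ X ∈ F, (V \ X).card ≤ t) (hc : V.card.choose t ≤ F.card) :
    F = V.powersetCard (V.card - t) := by
  apply lym_eq hV hF (by omega)
  · intro X hX hne
    have h1 := h X hX
    have h2 := card_le_card (hV X hX)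
    rw [card_sdiff_of_subset (hV X hX)] at h1
    rw [← Nat.choose_symm h2, Nat.choose_symm (by omega : t ≤ V.card)]
    exact choose_lt_of_lt (by omega) ht
  · rw [Nat.choose_symm (by omega : t ≤ V.card)]; exact hc

/-- Sperner on `2 s` points with uniqueness -/
theorem sperner_even {V : Finset α} {F : Finset (Finset α)} (hV : On V F) (hF : AC F) {s : ℕ}
    (hs : V.card = 2 * s) : F.card ≤ V.card.choose s ∧
      (V.card.choose s ≤ F.card → F = V.powersetCard s) := by
  have key : ∀ a : ℕ, a ≤ 2 * s → a ≠ s → (2 * s).choose a < (2 * s).choose s := by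
    intro a ha hne
    rcases Nat.lt_or_ge a s with h | h
    · exact choose_lt_of_lt h le_rfl
    · rw [← Nat.choose_symm ha]
      exact choose_lt_of_lt (by omega) le_rfl
  have hle : ∀ X ∈ F, X.card ≤ 2 * s := fun X hX => hs ▸ card_le_card (hV X hX)
  refine ⟨?_, fun hc => ?_⟩
  · apply lym_le hV hF (by omega)
    intro X hX
    rw [hs]
    by_cases h : X.card = s
    · rw [h]
    · exact (key _ (hle X hX) h).le
  · apply lym_eq hV hF (by omega) _ hc
    intro X hX hne
    rw [hs]
    exact key _ (hle X hX) hne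

end SHK
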