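import Pool.Agent.SHK.Push

/-!
# Mid-range families (rows 1046, 1065): MID gives (SH), hence S12353

`MID α`: a `(W)_s` antichain of subsets of an `n`-set with all sizes in `[s+1, n-s-1]` has at most
`C(n-1, s)` members. By dummy points it gives `(SH)` for all families, both parities.
`FLIP x`: the same family has at most as many members as there are `(s+1)`-sets through `x` which
are inside or outside some member; it gives MID.
-/

set_option autoImplicit false

open Finset

namespace SHK

section transport

variable {α β : Type*} [DecidableEq β] (f : α ↪ β)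

/-- image family -/
def im (F : Finset (Finset α)) : Finset (Finset β) := F.image fun X => X.map f

theorem mem_im {F : Finset (Finset α)} {Z : Finset β} :
    Z ∈ im f F ↔ ∃ X ∈ F, X.map f = Z := by simp [im]

theorem card_im (F : Finset (Finset α)) : (im f F).card = F.card :=
  card_image_of_injective _ (map_injective f)

theorem map_sdiff_map [DecidableEq α] (X Y : Finset α) : X.map f \ Y.map f = (X \ Y).map f := by
  ext b
  simp only [mem_sdiff, mem_map]
  constructor
  · rintro ⟨⟨a, ha, rfl⟩, h⟩
    exact ⟨a, ⟨ha, fun h' => h ⟨a, h', rfl⟩⟩, rfl⟩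
  · rintro ⟨a, ⟨ha, hY⟩, rfl⟩
    refine ⟨⟨a, ha, rfl⟩, ?_⟩
    rintro ⟨b, hb, hab⟩
    rw [f.injective hab] at hb
    exact hY hb

theorem ws_im [DecidableEq α] {s : ℕ} {F : Finset (Finset α)} (h : Ws s F) : Ws s (im f F) := by
  intro X hX Y hY
  obtain ⟨X', hX', rfl⟩ := (mem_im f).1 hX
  obtain ⟨Y', hY', rfl⟩ := (mem_im f).1 hY
  rw [map_sdiff_map, map_sdiff_map, card_map, card_map]
  exact h X' hX' Y' hY'

theorem ac_im {F : Finset (Finset α)} (h : AC F) : AC (im f F) := by
  intro X hX Y hY hne hsub
  obtain ⟨X', hX', rfl⟩ := (mem_im f).1 (mem_coe.1 hX)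
  obtain ⟨Y', hY', rfl⟩ := (mem_im f).1 (mem_coe.1 hY)
  exact h hX' hY' (fun h' => hne (by rw [h'])) (map_subset_map.1 hsub)

theorem sh_im [DecidableEq α] (s : ℕ) (F : Finset (Finset α)) : sh s (im f F) = im f (sh s F) := by
  ext S
  rw [mem_sh, mem_im]
  constructor
  · rintro ⟨X, hX, hSX, hS⟩
    obtain ⟨X', hX', rfl⟩ := (mem_im f).1 hX
    obtain ⟨S', hS', rfl⟩ := subset_map_iff.1 hSX
    refine ⟨S', mem_sh.2 ⟨X', hX', hS', ?_⟩, rfl⟩
    rwa [card_map] at hS
  · rintro ⟨S', hS', rfl⟩
    obtain ⟨X', hX', hSX, hS⟩ := mem_sh.1 hS'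
    exact ⟨X'.map f, (mem_im f).2 ⟨X', hX', rfl⟩, map_subset_map.2 hSX, by rwa [card_map]⟩

include f in
theorem sh_of_embedding [DecidableEq α] (H : SH β) : SH α := by
  intro s F hW hF hs
  have h := H s (im f F) (ws_im f hW) (ac_im f hF) (by
    intro X hX
    obtain ⟨X', hX', rfl⟩ := (mem_im f).1 hX
    rw [card_map]
    exact hs X' hX')
  rwa [card_im, sh_im, card_im] at h

end transport

/-- mid-range bound -/
def MID (α : Type*) [DecidableEq α] : Prop :=
  ∀ (V : Finset α) (s : ℕ) (F : Finset (Finset α)), On V F → Ws s F → AC F →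
    (∀ X ∈ F, s < X.card ∧ X.card + s < V.card) → F.card ≤ (V.card - 1).choose s

/-- mid-range bound for families on `Fin n` -/
def MIDfin : Prop :=
  ∀ (n s : ℕ) (F : Finset (Finset (Fin n))), Ws s F → AC F →
    (∀ X ∈ F, s < X.card ∧ X.card + s < n) → F.card ≤ (n - 1).choose s

theorem mid_of_fin {α : Type*} [DecidableEq α] (H : MIDfin) : MID α := by
  intro V s F hV hW hF hs
  classical
  set n := V.card with hn
  let e : V ≃ Fin n := V.equivFin
  let g : Fin n ↪ α := e.symm.toEmbedding.trans (Function.Embedding.subtype _)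
  set G : Finset (Finset (Fin n)) := univ.filter fun Y => Y.map g ∈ F with hG
  have hmem : ∀ Y, Y ∈ G ↔ Y.map g ∈ F := by simp [hG]
  have himG : im g G = F := by
    ext X
    rw [mem_im]
    constructor
    · rintro ⟨Y, hY, rfl⟩
      exact (hmem Y).1 hY
    · intro hX
      have hXg : (univ.filter fun i => g i ∈ X).map g = X := by
        ext a
        simp only [mem_map, mem_filter, mem_univ, true_and]
        constructor
        · rintro ⟨i, hi, rfl⟩
          exact hi
        · intro ha
          refine ⟨e ⟨a, hV X hX ha⟩, ?_, ?_⟩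
          · simpa [g] using ha
          · simp [g]
      exact ⟨univ.filter fun i => g i ∈ X, (hmem _).2 (by rw [hXg]; exact hX), hXg⟩
  have hGW : Ws s G := by
    intro X hX Y hY
    have := hW _ ((hmem X).1 hX) _ ((hmem Y).1 hY)
    rwa [map_sdiff_map, map_sdiff_map, card_map, card_map] at this
  have hGF : AC G := by
    intro X hX Y hY hne hsub
    exact hF ((hmem X).1 (mem_coe.1 hX)) ((hmem Y).1 (mem_coe.1 hY))
      (fun h => hne (map_injective g h)) (map_subset_map.2 hsub)
  have h := H n s G hGW hGF (by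
    intro X hX
    have := hs _ ((hmem X).1 hX)
    rwa [card_map] at this)
  rwa [← himG, card_im]

/-- a superset of `V` of size `≥ m`, in an infinite type -/
theorem exists_big {α : Type*} [DecidableEq α] [Infinite α] (V : Finset α) (m : ℕ) :
    ∃ W : Finset α, V ⊆ W ∧ m ≤ W.card := by
  obtain ⟨W, hW, hc⟩ := Infinite.exists_superset_card_eq V (max m V.card) (le_max_right _ _)
  exact ⟨W, hW, by omega⟩

/-- dummy points: `MID` on an infinite type gives `(SH)` -/
theorem sh_of_mid {α : Type*} [DecidableEq α] [Infinite α] (H : MID α) : SH α := by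
  intro s F hW hF hs
  apply split_level hF hs
  set T := F.filter fun X => s < X.card with hT
  have hTs : ∀ X ∈ T, s < X.card := fun X hX => (mem_filter.1 hX).2
  have hTF : AC T := hF.mono (filter_subset _ _)
  have hTW : Ws s T := hW.mono (filter_subset _ _)
  rcases T.eq_empty_or_nonempty with h0 | ⟨X0, hX0⟩
  · rw [h0]; simp
  obtain ⟨V, hTV', hVc⟩ := exists_big (supp T) ((supp T).card + s + 1)
  have hTV : On V T := fun X hX x hx => hTV' (mem_supp.2 ⟨X, hX, hx⟩)
  have hTc : ∀ X ∈ T, X.card + s < V.card := by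
    intro X hX
    have h1 : X ⊆ supp T := fun x hx => mem_supp.2 ⟨X, hX, hx⟩
    have := card_le_card h1
    omega
  obtain ⟨z, hz⟩ := Infinite.exists_notMem_finset V
  set L := V.powersetCard s \ sh s T with hL
  have hLs : ∀ S ∈ L, S.card = s := fun S hS => (mem_powersetCard.1 (mem_sdiff.1 hS).1).2
  have hLV : ∀ S ∈ L, S ⊆ V := fun S hS => (mem_powersetCard.1 (mem_sdiff.1 hS).1).1
  have hdis : Disjoint T L := by
    rw [disjoint_left]
    intro X hX hXL
    have := hTs X hX
    have := hLs X hXL
    omega
  have hzU : ∀ X ∈ T ∪ L, z ∉ X := by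
    intro X hX hzX
    rcases mem_union.1 hX with h | h
    · exact hz (hTV X h hzX)
    · exact hz (hLV X h hzX)
  have hUAC : AC (T ∪ L) := by
    intro X hX Y hY hne hsub
    rcases mem_union.1 hX with hX | hX
    · rcases mem_union.1 hY with hY | hY
      · exact hTF hX hY hne hsub
      · have := card_le_card hsub
        have := hTs X hX
        have := hLs Y hY
        omega
    · rcases mem_union.1 hY with hY | hY
      · exact (mem_sdiff.1 hX).2 (mem_sh.2 ⟨Y, hY, hsub, hLs X hX⟩)
      · exact hne (eq_of_subset_of_card_le hsub (by rw [hLs X hX, hLs Y hY]))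
  have hUW : Ws s (T ∪ L) := by
    intro X hX Y hY
    rcases mem_union.1 hX with hX | hX
    · rcases mem_union.1 hY with hY | hY
      · exact hTW X hX Y hY
      · right
        exact (card_le_card sdiff_subset).trans (hLs Y hY).le
    · left
      exact (card_le_card sdiff_subset).trans (hLs X hX).le
  set G := (T ∪ L).image (insert z) with hG
  have hinj : Set.InjOn (insert z) ((T ∪ L : Finset (Finset α)) : Set (Finset α)) := by
    intro X hX Y hY h
    have h1 : (insert z X).erase z = (insert z Y).erase z := by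
      show (insert z X).erase z = _
      rw [h]
    rwa [erase_insert (hzU X (mem_coe.1 hX)), erase_insert (hzU Y (mem_coe.1 hY))] at h1
  have hGc : G.card = T.card + L.card := by
    rw [hG, card_image_of_injOn hinj, card_union_of_disjoint hdis]
  have hsd : ∀ X Y : Finset α, z ∉ X → insert z X \ insert z Y = X \ Y := by
    intro X Y hX
    ext a
    simp only [mem_sdiff, mem_insert, not_or]
    constructor
    · rintro ⟨h1 | h1, h2, h3⟩
      · exact absurd h1 h2
      · exact ⟨h1, h3⟩
    · rintro ⟨h1, h2⟩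
      exact ⟨Or.inr h1, fun h => hX (h ▸ h1), h2⟩
  have h := H (insert z V) s G ?_ ?_ ?_ ?_
  · rw [hGc, card_insert_of_notMem hz, Nat.add_sub_cancel, hL,
      card_sdiff_of_subset (sh_subset hTV), card_powersetCard] at h
    have h2 := card_le_card (sh_subset (s := s) hTV)
    rw [card_powersetCard] at h2
    omega
  · intro X hX
    obtain ⟨Y, hY, rfl⟩ := mem_image.1 hX
    apply insert_subset_insert
    rcases mem_union.1 hY with h | h
    · exact hTV Y h
    · exact hLV Y h
  · intro X hX Y hY
    obtain ⟨X', hX', rfl⟩ := mem_image.1 hX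
    obtain ⟨Y', hY', rfl⟩ := mem_image.1 hY
    rw [hsd _ _ (hzU X' hX'), hsd _ _ (hzU Y' hY')]
    exact hUW X' hX' Y' hY'
  · intro X hX Y hY hne hsub
    obtain ⟨X', hX', rfl⟩ := mem_image.1 (mem_coe.1 hX)
    obtain ⟨Y', hY', rfl⟩ := mem_image.1 (mem_coe.1 hY)
    apply hUAC hX' hY' (fun h => hne (by rw [h]))
    intro a ha
    rcases mem_insert.1 (hsub (mem_insert_of_mem ha)) with h | h
    · exact absurd (h ▸ ha) (hzU X' hX')
    · exact h
  · intro X hX
    obtain ⟨Y, hY, rfl⟩ := mem_image.1 hX
    rw [card_insert_of_notMem (hzU Y hY), card_insert_of_notMem hz]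
    rcases mem_union.1 hY with h | h
    · have := hTs Y h
      have := hTc Y h
      omega
    · have := hLs Y h
      have := hTs X0 hX0
      have := hTc X0 hX0
      omega

/-- `MID` gives the frozen statement S12353 (both parities). -/
theorem frozen_of_mid (H : MIDfin) :
    ∀ n k : ℕ, 1 ≤ k → k ≤ n →
      ∀ F : Finset (Finset (Fin n)),
        IsAntichain (· ⊆ ·) (F : Set (Finset (Fin n))) →
        (∀ A ∈ F, ∀ B ∈ F, (symmDiff A B).card ≤ n - k) →
        F.card ≤ n.choose ((n + k + 1) / 2) :=
  frozen_of_sh fun _ => sh_of_embedding Fin.valEmbedding (sh_of_mid (mid_of_fin H))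

/-- `(s+1)`-sets through `x` which are inside or outside some member of `F` -/
def uns (n s : ℕ) (x : Fin n) (F : Finset (Finset (Fin n))) : Finset (Finset (Fin n)) :=
  (univ.powersetCard (s + 1)).filter fun P => x ∈ P ∧ ∃ X ∈ F, P ⊆ X ∨ Disjoint P X

/-- FLIP / COV at some point `x` -/
def FLIP : Prop :=
  ∀ (n s : ℕ) (F : Finset (Finset (Fin n))), F.Nonempty → Ws s F → AC F →
    (∀ X ∈ F, s < X.card ∧ X.card + s < n) → ∃ x : Fin n, F.card ≤ (uns n s x F).card

theorem card_thru (n s : ℕ) (x : Fin n) :
    (((univ : Finset (Fin n)).powersetCard (s + 1)).filter fun P => x ∈ P).card =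
      (n - 1).choose s := by
  have h : ((univ : Finset (Fin n)).powersetCard (s + 1)).filter (fun P => x ∈ P) =
      ((univ.erase x).powersetCard s).image (insert x) := by
    ext P
    simp only [mem_filter, mem_powersetCard, mem_image, subset_univ, true_and]
    constructor
    · rintro ⟨hP, hx⟩
      refine ⟨P.erase x, ⟨erase_subset_erase x (subset_univ P), ?_⟩, insert_erase hx⟩
      rw [card_erase_of_mem hx, hP]; rfl
    · rintro ⟨S, ⟨hS, hc⟩, rfl⟩
      have hx : x ∉ S := fun h => by simpa using hS h
      exact ⟨by rw [card_insert_of_notMem hx, hc], mem_insert_self x S⟩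
  rw [h, card_image_of_injOn, card_powersetCard, card_erase_of_mem (mem_univ x), card_univ,
    Fintype.card_fin]
  intro S hS T hT hST
  have hS' : x ∉ S := fun h => by
    have := (mem_powersetCard.1 (mem_coe.1 hS)).1 h
    simp at this
  have hT' : x ∉ T := fun h => by
    have := (mem_powersetCard.1 (mem_coe.1 hT)).1 h
    simp at this
  have h1 : (insert x S).erase x = (insert x T).erase x := by
    show (insert x S).erase x = _
    rw [hST]
  rwa [erase_insert hS', erase_insert hT'] at h1

theorem mid_of_flip (H : FLIP) : MIDfin := by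
  intro n s F hW hF hs
  rcases F.eq_empty_or_nonempty with h0 | h0
  · rw [h0]; simp
  obtain ⟨x, hx⟩ := H n s F h0 hW hF hs
  refine hx.trans ?_
  rw [← card_thru n s x]
  apply card_le_card
  intro P hP
  rw [uns, mem_filter] at hP
  exact mem_filter.2 ⟨hP.1, hP.2.1⟩

end SHK
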