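import Pool.Agent.SHK.ZLemma

/-!
# (PAIR') at one point ⟹ TOP ⟹ S12353 (helper72, 1083); (GEN) (helper81, 1078)

`A = Ah s z F`: the members through `z`, without `z`, of size `≥ s`; `B = Bh s z V F`: the
complements in `V - z` of the members that avoid `z`, of size `≥ s`. `Φ1`, `Φ0`: their `s`-faces.
(PAIR') at `z`: `|A| + |B| ≤ |Φ1 ∪ Φ0| + |∂Φ1 ∩ ∂Φ0|`. One such `z` gives `|F| ≤ C(N,s)`,
without induction.

(GEN) at `R`: the family `F_R = {X ∆ R : X ∈ F, |X ∆ R| ≥ s}` satisfies `|F_R| ≤ |sh s F_R|`.
At `R = ∅` it is (SH); at the complement of one member it gives the diameter form directly if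
all distances are at most `N - s`.
-/

set_option autoImplicit false

open Finset

namespace SHK

variable {α : Type*} [DecidableEq α]

/-- the large part of the link -/
def Ah (s : ℕ) (z : α) (F : Finset (Finset α)) : Finset (Finset α) :=
  (F1 z F).filter fun X => s ≤ X.card

/-- the large part of the complements of the deletion -/
def Bh (s : ℕ) (z : α) (V : Finset α) (F : Finset (Finset α)) : Finset (Finset α) :=
  (cF (V.erase z) (F0 z F)).filter fun X => s ≤ X.card

/-- (PAIR') at the point `z` -/
def PairAt (s : ℕ) (V : Finset α) (F : Finset (Finset α)) (z : α) : Prop :=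
  (Ah s z F).card + (Bh s z V F).card ≤
    (Phi1 s z V F ∪ Phi0 s z V F).card +
      (sh (s - 1) (Phi1 s z V F) ∩ sh (s - 1) (Phi0 s z V F)).card

/-- the small part of an antichain on `W` against the `(s-1)`-faces of its `s`-faces -/
theorem half_small {W : Finset α} {t : ℕ} (h2 : 2 * t ≤ W.card)
    {A : Finset (Finset α)} (hA : AC A) (hV : On W A) :
    A.card + (sh t (sh (t + 1) A)).card ≤
      (A.filter fun X => t + 1 ≤ X.card).card + W.card.choose t := by
  set B := A.filter fun X => t + 1 ≤ X.card with hB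
  set C := A.filter fun X => ¬ t + 1 ≤ X.card with hC
  have hcard : A.card = B.card + C.card := (card_filter_add_card_filter_not _).symm
  have hK : sh t (sh (t + 1) A) ⊆ W.powersetCard t := by
    apply sh_subset
    intro S hS
    obtain ⟨X, hX, hSX, -⟩ := mem_sh.1 hS
    exact hSX.trans (hV X hX)
  have h3 := push h2 (A := C) (K := sh t (sh (t + 1) A))
    (fun X hX => hV X (mem_filter.1 hX).1) (hA.mono (filter_subset _ _))
    (fun X hX => by have := (mem_filter.1 hX).2; omega) hK (by
      intro X hX T hT hXT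
      obtain ⟨S, hS, hTS, -⟩ := mem_sh.1 hT
      obtain ⟨Y, hY, hSY, hSc⟩ := mem_sh.1 hS
      have hXc := (mem_filter.1 hX).2
      have hYc : t + 1 ≤ Y.card := by rw [← hSc]; exact card_le_card hSY
      have hne : X ≠ Y := by rintro rfl; exact hXc hYc
      exact hA (mem_filter.1 hX).1 hY hne (hXT.trans (hTS.trans hSY)))
  omega

/-- (PAIR') at one point gives TOP for the family, `s = t + 1`; no induction, `(W)_s` is not
used any more. -/
theorem top_of_pair {V : Finset α} {t : ℕ} (h2 : 2 * (t + 1) ≤ V.card) {z : α} (hz : z ∈ V)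
    {F : Finset (Finset α)} (hV : On V F) (hF : AC F) (hP : PairAt (t + 1) V F z) :
    F.card ≤ V.card.choose (t + 1) := by
  have hN : (V.erase z).card + 1 = V.card := card_erase_add_one hz
  unfold PairAt Ah Bh at hP
  simp only [Nat.add_sub_cancel] at hP
  set W := V.erase z with hWdef
  set Φ1 := Phi1 (t + 1) z V F with hΦ1
  set Φ0 := Phi0 (t + 1) z V F with hΦ0
  have h1 := half_small (W := W) (t := t) (by omega) (hF.F1 z) (hV.F1 z)
  rw [sh_F1_eq hV, ← hΦ1] at h1
  have h0 := half_small (W := W) (t := t) (by omega) (A := cF W (F0 z F))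
    (ac_cF (hV.F0 z) (hF.F0 z)) (on_cF _ _)
  rw [card_cF (hV.F0 z), hWdef, sh_cF0_eq, ← hWdef, ← hΦ0] at h0
  have hsub1 : Φ1 ⊆ W.powersetCard (t + 1) := filter_subset _ _
  have hsub0 : Φ0 ⊆ W.powersetCard (t + 1) := filter_subset _ _
  have h3 := lym_defect (V := W) (t := t) (by omega) (union_subset hsub1 hsub0)
  have h5 : sh t (Φ1 ∪ Φ0) = sh t Φ1 ∪ sh t Φ0 := by
    rw [sh, union_biUnion]; rfl
  have h8 : (sh t Φ1 ∪ sh t Φ0).card + (sh t Φ1 ∩ sh t Φ0).card =
      (sh t Φ1).card + (sh t Φ0).card := card_union_add_card_inter _ _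
  have h9 := card_F1_add_card_F0 (F := F) z
  have h10 : V.card.choose (t + 1) = W.card.choose t + W.card.choose (t + 1) := by
    rw [← hN, Nat.choose_succ_succ]
  rw [h5] at h3
  omega

/-- (PAIR') at one point of every violating family gives (SH). -/
theorem shon_of_pair (s : ℕ)
    (H : ∀ (V : Finset α) (F : Finset (Finset α)), 2 * s + 1 ≤ V.card → On V F → AC F → Ws s F →
      V.card.choose s < F.card → ∃ z ∈ V, PairAt s V F z) :
    ∀ V : Finset α, SHon V s := by
  rcases Nat.eq_zero_or_pos s with rfl | hs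
  · intro V F hV hW hF _
    rcases F.eq_empty_or_nonempty with rfl | ⟨X, hX⟩
    · simp
    · refine (ws_zero hW hF).trans ?_
      rw [Nat.succ_le_iff, card_pos]
      exact ⟨∅, mem_sh.2 ⟨X, hX, empty_subset _, rfl⟩⟩
  obtain ⟨t, rfl⟩ : ∃ t, s = t + 1 := ⟨s - 1, by omega⟩
  intro V
  rcases Nat.lt_or_ge (2 * (t + 1)) V.card with hlt | hge
  · apply sh_of_top
    intro F hV hW hF
    by_contra hv
    push Not at hv
    obtain ⟨z, hz, hE⟩ := H V F hlt hV hF hW hv
    have h1 := top_of_pair (by omega) hz hV hF hE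
    omega
  · exact shon_base hge

/-- (PAIR') at one point of every violating family gives the frozen statement S12353. -/
theorem frozen_of_pair
    (H : ∀ (n s : ℕ) (V : Finset (Fin n)) (F : Finset (Finset (Fin n))), 2 * s + 1 ≤ V.card →
      On V F → AC F → Ws s F → V.card.choose s < F.card → ∃ z ∈ V, PairAt s V F z) :
    ∀ n k : ℕ, 1 ≤ k → k ≤ n →
      ∀ F : Finset (Finset (Fin n)),
        IsAntichain (· ⊆ ·) (F : Set (Finset (Fin n))) →
        (∀ A ∈ F, ∀ B ∈ F, (symmDiff A B).card ≤ n - k) →
        F.card ≤ n.choose ((n + k + 1) / 2) := by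
  apply frozen_of_sh
  intro n s F hW hF hs
  exact shon_of_pair s (H n s) univ F (fun X _ => subset_univ X) hW hF hs

/-- the far part of the family, seen from the vertex `R` -/
def Far (s : ℕ) (R : Finset α) (F : Finset (Finset α)) : Finset (Finset α) :=
  (F.image fun X => symmDiff X R).filter fun Y => s ≤ Y.card

/-- (GEN) at the vertex `R` -/
def GenAt (s : ℕ) (R : Finset α) (F : Finset (Finset α)) : Prop :=
  (Far s R F).card ≤ (sh s (Far s R F)).card

/-- (GEN) at `R = ∅` is (SH) -/
theorem frozen_of_gen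
    (H : ∀ (n s : ℕ) (F : Finset (Finset (Fin n))), AC F → Ws s F → GenAt s ∅ F) :
    ∀ n k : ℕ, 1 ≤ k → k ≤ n →
      ∀ F : Finset (Finset (Fin n)),
        IsAntichain (· ⊆ ·) (F : Set (Finset (Fin n))) →
        (∀ A ∈ F, ∀ B ∈ F, (symmDiff A B).card ≤ n - k) →
        F.card ≤ n.choose ((n + k + 1) / 2) := by
  apply frozen_of_sh
  intro n s F hW hF hs
  have h := H n s F hF hW
  unfold GenAt Far at h
  have e : (F.image fun X => symmDiff X (∅ : Finset (Fin n))) = F := by
    have : (fun X : Finset (Fin n) => symmDiff X (∅ : Finset (Fin n))) = id := by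
      funext X
      simp [symmDiff]
    rw [this, image_id]
  rw [e, filter_true_of_mem hs] at h
  exact h

/-- (GEN) at the complement of one point `Z` of the cube with `|X ∆ Z| + s ≤ N` for all members
gives `|F| ≤ C(N,s)`. -/
theorem top_of_gen {V Z : Finset α} {s : ℕ} {F : Finset (Finset α)} (hV : On V F) (hZ : Z ⊆ V)
    (hd : ∀ X ∈ F, (symmDiff X Z).card + s ≤ V.card) (h : GenAt s (V \ Z) F) :
    F.card ≤ V.card.choose s := by
  have hsub : ∀ X ∈ F, symmDiff X (V \ Z) = V \ symmDiff X Z := by
    intro X hX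
    ext y
    have h1 := @hV X hX y
    have h2 := @hZ y
    simp only [mem_symmDiff, mem_sdiff]
    tauto
  have hXV : ∀ X ∈ F, symmDiff X Z ⊆ V := by
    intro X hX y hy
    rcases mem_symmDiff.1 hy with h | h
    · exact hV X hX h.1
    · exact hZ h.1
  have hcard : (Far s (V \ Z) F).card = F.card := by
    unfold Far
    rw [filter_true_of_mem]
    · exact card_image_of_injective _ (symmDiff_left_injective (V \ Z))
    · intro Y hY
      obtain ⟨X, hX, rfl⟩ := mem_image.1 hY
      rw [hsub X hX, card_sdiff_of_subset (hXV X hX)]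
      have := hd X hX
      omega
  have hsh : sh s (Far s (V \ Z) F) ⊆ V.powersetCard s := by
    apply sh_subset
    intro Y hY
    obtain ⟨X, hX, rfl⟩ := mem_image.1 (mem_filter.1 hY).1
    rw [hsub X hX]
    exact sdiff_subset
  have h3 := card_le_card hsh
  rw [card_powersetCard] at h3
  unfold GenAt at h
  omega

end SHK
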