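import Pool.Agent.SHK.Konig

/-!
# Pushing small members up to level `s`; (SH) ⟹ TOP ⟹ both halves of Q1 (S12353)
-/

set_option autoImplicit false

open Finset

namespace SHK

variable {α : Type*} [DecidableEq α]

/-- upper shadow of the members inside `V` -/
def upsh (V : Finset α) (A : Finset (Finset α)) : Finset (Finset α) :=
  A.biUnion fun X => (V \ X).image fun z => insert z X

theorem mem_upsh {V : Finset α} {A : Finset (Finset α)} {Z : Finset α} :
    Z ∈ upsh V A ↔ ∃ X ∈ A, ∃ z ∈ V, z ∉ X ∧ insert z X = Z := by
  simp only [upsh, mem_biUnion, mem_image, mem_sdiff]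
  constructor
  · rintro ⟨X, hX, z, ⟨h1, h2⟩, h3⟩; exact ⟨X, hX, z, h1, h2, h3⟩
  · rintro ⟨X, hX, z, h1, h2, h3⟩; exact ⟨X, hX, z, ⟨h1, h2⟩, h3⟩

theorem card_le_upsh {V : Finset α} {A : Finset (Finset α)} {a : ℕ} (hV : On V A)
    (hA : ∀ X ∈ A, X.card = a) (ha : 2 * a + 1 ≤ V.card) : A.card ≤ (upsh V A).card := by
  classical
  have h := card_mul_le_card_mul (s := A) (t := upsh V A) (m := V.card - a) (n := a + 1)
    (fun X Z : Finset α => X ⊆ Z) ?_ ?_
  · have h1 : a + 1 ≤ V.card - a := by omega
    have h2 : A.card * (a + 1) ≤ (upsh V A).card * (a + 1) :=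
      (Nat.mul_le_mul_left _ h1).trans h
    exact Nat.le_of_mul_le_mul_right h2 (Nat.succ_pos a)
  · intro X hX
    have hc : ((V \ X).image fun z => insert z X).card = V.card - a := by
      rw [card_image_of_injOn, card_sdiff_of_subset (hV X hX), hA X hX]
      intro z hz w hw h
      have hz' : z ∉ X := (mem_sdiff.1 hz).2
      have h1 : z ∈ insert w X := by
        have h0 : z ∈ insert z X := mem_insert_self z X
        have h' : insert z X = insert w X := h
        rwa [h'] at h0
      rcases mem_insert.1 h1 with h2 | h2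
      · exact h2
      · exact absurd h2 hz'
    rw [← hc]
    apply card_le_card
    intro Z hZ
    rw [bipartiteAbove, mem_filter]
    refine ⟨mem_biUnion.2 ⟨X, hX, hZ⟩, ?_⟩
    obtain ⟨z, -, rfl⟩ := mem_image.1 hZ
    exact subset_insert z X
  · intro Z hZ
    obtain ⟨X, hX, z, hzV, hzX, rfl⟩ := mem_upsh.1 hZ
    have hc : ((insert z X).powersetCard a).card = a + 1 := by
      rw [card_powersetCard, card_insert_of_notMem hzX, hA X hX, Nat.choose_succ_self_right]
    rw [← hc]
    apply card_le_card
    intro Y hY
    rw [bipartiteBelow, mem_filter] at hY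
    exact mem_powersetCard.2 ⟨hY.2, hA Y hY.1⟩

/-- PUSH: an antichain of sets of size `≤ s` and a family `K` of `s`-sets, none of them above a
member of `A`, have together at most `C(n,s)` members. -/
theorem push {V : Finset α} {s : ℕ} (h2 : 2 * s ≤ V.card) {A K : Finset (Finset α)}
    (hV : On V A) (hA : AC A) (hAs : ∀ X ∈ A, X.card ≤ s)
    (hK : K ⊆ V.powersetCard s) (hAK : ∀ X ∈ A, ∀ S ∈ K, ¬ X ⊆ S) :
    A.card + K.card ≤ V.card.choose s := by
  classical
  suffices H : ∀ (j : ℕ) (A : Finset (Finset α)), On V A → AC A → (∀ X ∈ A, X.card ≤ s) →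
      (∀ X ∈ A, ∀ S ∈ K, ¬ X ⊆ S) → (∀ X ∈ A, s ≤ X.card + j) →
      A.card + K.card ≤ V.card.choose s from
    H s A hV hA hAs hAK fun X _ => by omega
  intro j
  induction j with
  | zero =>
    intro A hV hA hAs hAK hj
    have hdis : Disjoint A K := by
      rw [disjoint_left]
      intro X hX hXK
      exact hAK X hX X hXK (Subset.refl X)
    rw [← card_union_of_disjoint hdis, ← card_powersetCard]
    apply card_le_card
    apply union_subset _ hK
    intro X hX
    have h3 := hj X hX
    have h4 := hAs X hX
    exact mem_powersetCard.2 ⟨hV X hX, by omega⟩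
  | succ j ih =>
    intro A hV hA hAs hAK hj
    rcases Nat.lt_or_ge s (j + 1) with hlt | hge
    · exact ih A hV hA hAs hAK fun X _ => by omega
    set a := s - (j + 1) with ha
    set B := A.filter fun X => X.card = a with hB
    set C := A.filter fun X => ¬ X.card = a with hC
    have hBC : A.card = B.card + C.card := (card_filter_add_card_filter_not _).symm
    have hBV : On V B := fun X hX => hV X (mem_filter.1 hX).1
    have hBa : ∀ X ∈ B, X.card = a := fun X hX => (mem_filter.1 hX).2
    have hUc := card_le_upsh hBV hBa (by omega)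
    set U := upsh V B with hU
    have hUcard : ∀ Z ∈ U, Z.card = a + 1 := by
      intro Z hZ
      obtain ⟨X, hX, z, -, hzX, rfl⟩ := mem_upsh.1 hZ
      rw [card_insert_of_notMem hzX, hBa X hX]
    have hCcard : ∀ X ∈ C, a + 1 ≤ X.card := by
      intro X hX
      have h3 := hj X (mem_filter.1 hX).1
      have h4 := (mem_filter.1 hX).2
      omega
    have hUC : Disjoint U C := by
      rw [disjoint_left]
      intro Z hZ hZC
      obtain ⟨X, hX, z, -, hzX, rfl⟩ := mem_upsh.1 hZ
      have hne : X ≠ insert z X := fun h => hzX (by rw [h]; exact mem_insert_self z X)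
      exact hA (mem_filter.1 hX).1 (mem_filter.1 hZC).1 hne (subset_insert z X)
    have hcard : (U ∪ C).card = U.card + C.card := card_union_of_disjoint hUC
    have := ih (U ∪ C) ?_ ?_ ?_ ?_ ?_
    · omega
    · intro Z hZ
      rcases mem_union.1 hZ with h | h
      · obtain ⟨X, hX, z, hzV, -, rfl⟩ := mem_upsh.1 h
        exact insert_subset hzV (hBV X hX)
      · exact hV Z (mem_filter.1 h).1
    · intro P hP Q hQ hne hsub
      rcases mem_union.1 hP with hP | hP <;> rcases mem_union.1 hQ with hQ | hQ
      · exact hne (eq_of_subset_of_card_le hsub (by rw [hUcard P hP, hUcard Q hQ]))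
      · obtain ⟨X, hX, z, -, hzX, rfl⟩ := mem_upsh.1 hP
        have hXQ : X ⊆ Q := (subset_insert z X).trans hsub
        have hne' : X ≠ Q := by
          rintro rfl
          have := hCcard X hQ
          have := hBa X hX
          omega
        exact hA (mem_filter.1 hX).1 (mem_filter.1 hQ).1 hne' hXQ
      · exact hne (eq_of_subset_of_card_le hsub (by rw [hUcard Q hQ]; exact hCcard P hP))
      · exact hA (mem_filter.1 hP).1 (mem_filter.1 hQ).1 hne hsub
    · intro Z hZ
      rcases mem_union.1 hZ with h | h
      · rw [hUcard Z h]; omega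
      · exact hAs Z (mem_filter.1 h).1
    · intro Z hZ S hS
      rcases mem_union.1 hZ with h | h
      · obtain ⟨X, hX, z, -, -, rfl⟩ := mem_upsh.1 h
        intro hsub
        exact hAK X (mem_filter.1 hX).1 S hS ((subset_insert z X).trans hsub)
      · exact hAK Z (mem_filter.1 h).1 S hS
    · intro Z hZ
      rcases mem_union.1 hZ with h | h
      · rw [hUcard Z h]; omega
      · have := hCcard Z h; omega

/-- (SH) on a ground set -/
def SHon (V : Finset α) (s : ℕ) : Prop :=
  ∀ F : Finset (Finset α), On V F → Ws s F → AC F → (∀ X ∈ F, s ≤ X.card) →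
    F.card ≤ (sh s F).card

/-- TOP on a ground set -/
def TOPon (V : Finset α) (s : ℕ) : Prop :=
  ∀ F : Finset (Finset α), On V F → Ws s F → AC F → F.card ≤ V.card.choose s

theorem sh_subset {V : Finset α} {s : ℕ} {F : Finset (Finset α)} (hV : On V F) :
    sh s F ⊆ V.powersetCard s := by
  intro S hS
  obtain ⟨X, hX, hSX, hSc⟩ := mem_sh.1 hS
  exact mem_powersetCard.2 ⟨hSX.trans (hV X hX), hSc⟩

theorem top_of_sh {V : Finset α} {s : ℕ} (h2 : 2 * s ≤ V.card) (h : SHon V s) : TOPon V s := by
  intro F hV hW hF
  set T := F.filter fun X => s < X.card with hT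
  set L := F.filter fun X => ¬ s < X.card with hL
  have hcard : F.card = T.card + L.card := (card_filter_add_card_filter_not _).symm
  have hTV : On V T := fun X hX => hV X (mem_filter.1 hX).1
  have h3 := h T hTV (hW.mono (filter_subset _ _)) (hF.mono (filter_subset _ _))
    fun X hX => (mem_filter.1 hX).2.le
  have h4 := push h2 (A := L) (K := sh s T) (fun X hX => hV X (mem_filter.1 hX).1)
    (hF.mono (filter_subset _ _)) (fun X hX => by have := (mem_filter.1 hX).2; omega)
    (sh_subset hTV) (by
      intro X hX S hS hXS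
      obtain ⟨Y, hY, hSY, hSc⟩ := mem_sh.1 hS
      have hYs := (mem_filter.1 hY).2
      have hXs := (mem_filter.1 hX).2
      have hne : X ≠ Y := by rintro rfl; exact hXs hYs
      exact hF (mem_filter.1 hX).1 (mem_filter.1 hY).1 hne (hXS.trans hSY))
  omega

/-- the family `T ∪ {s-sets not below T}` -/
theorem sh_of_top {V : Finset α} {s : ℕ} (h : TOPon V s) : SHon V s := by
  intro F hV hW hF hs
  apply split_level hF hs
  set T := F.filter fun X => s < X.card with hT
  set L := V.powersetCard s \ sh s T with hL
  have hTV : On V T := fun X hX => hV X (mem_filter.1 hX).1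
  have hTs : ∀ X ∈ T, s < X.card := fun X hX => (mem_filter.1 hX).2
  have hTF : AC T := hF.mono (filter_subset _ _)
  have hLs : ∀ S ∈ L, S.card = s := fun S hS => (mem_powersetCard.1 (mem_sdiff.1 hS).1).2
  have hdis : Disjoint T L := by
    rw [disjoint_left]
    intro X hX hXL
    have := hTs X hX
    have := hLs X hXL
    omega
  have h1 := h (T ∪ L) ?_ ?_ ?_
  · rw [card_union_of_disjoint hdis, hL, card_sdiff_of_subset (sh_subset hTV),
      card_powersetCard] at h1
    have h2 := card_le_card (sh_subset (s := s) hTV)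
    rw [card_powersetCard] at h2
    omega
  · intro X hX
    rcases mem_union.1 hX with h | h
    · exact hTV X h
    · exact (mem_powersetCard.1 (mem_sdiff.1 h).1).1
  · intro X hX Y hY
    rcases mem_union.1 hX with hX | hX
    · rcases mem_union.1 hY with hY | hY
      · exact (hW.mono (filter_subset _ _)) X hX Y hY
      · right
        exact (card_le_card sdiff_subset).trans (hLs Y hY).le
    · left
      exact (card_le_card sdiff_subset).trans (hLs X hX).le
  · intro X hX Y hY hne hsub
    rcases mem_union.1 hX with hX | hX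
    · rcases mem_union.1 hY with hY | hY
      · exact hTF hX hY hne hsub
      · have := card_le_card hsub
        have := hTs X hX
        have := hLs Y hY
        omega
    · rcases mem_union.1 hY with hY | hY
      · exact (mem_sdiff.1 hX).2 (mem_sh.2 ⟨Y, hY, hsub, hLs X hX⟩)
      · exact hne (eq_of_subset_of_card_le hsub (by rw [hLs X hX, hLs Y hY]))

theorem SH.on (h : SH α) (V : Finset α) (s : ℕ) : SHon V s :=
  fun F _ hW hF hs => h s F hW hF hs

/-- (SH) for `Fin n` gives the frozen statement S12353 (both parities). -/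
theorem frozen_of_sh (H : ∀ n : ℕ, SH (Fin n)) :
    ∀ n k : ℕ, 1 ≤ k → k ≤ n →
      ∀ F : Finset (Finset (Fin n)),
        IsAntichain (· ⊆ ·) (F : Set (Finset (Fin n))) →
        (∀ A ∈ F, ∀ B ∈ F, (symmDiff A B).card ≤ n - k) →
        F.card ≤ n.choose ((n + k + 1) / 2) := by
  intro n k hk hkn F hF hD
  set s := (n - k) / 2 with hs
  have h1 : (n + k + 1) / 2 = n - s := by omega
  have h2 : s ≤ n := by omega
  rw [h1, Nat.choose_symm h2]
  have hW : Ws s F := by
    intro X hX Y hY
    have h3 := hD X hX Y hY
    have h4 : (symmDiff X Y).card = (X \ Y).card + (Y \ X).card := by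
      rw [symmDiff_def, sup_eq_union, card_union_of_disjoint]
      exact disjoint_sdiff_sdiff
    omega
  have h5 := top_of_sh (V := (univ : Finset (Fin n))) (s := s) (by
    rw [card_univ, Fintype.card_fin]; omega) ((H n).on _ _) F (fun X _ => subset_univ X) hW hF
  rwa [card_univ, Fintype.card_fin] at h5

end SHK
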