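import Pool.Agent.SHK.Push

/-!
# The Z-lemma with an error term (helper52)

`F` a `(W)_s` antichain on `V`, `|V| = N ≥ 2s`, `z ∈ V`. `Ez s z F V` = the `s`-sets `S ⊆ V - z`
such that `S ∪ {z}` is contained in a member and disjoint from a member `Q ∌ z`. If (SH) holds on
`V - z` then `|F| + |∂ E_z| ≤ C(N,s) + |E_z|`.
-/

set_option autoImplicit false

open Finset

namespace SHK

variable {α : Type*} [DecidableEq α]

/-- complements in `V` -/
def cF (V : Finset α) (F : Finset (Finset α)) : Finset (Finset α) := F.image fun X => V \ X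

theorem mem_cF {V : Finset α} {F : Finset (Finset α)} {Y : Finset α} :
    Y ∈ cF V F ↔ ∃ X ∈ F, V \ X = Y := by simp [cF]

theorem card_cF {V : Finset α} {F : Finset (Finset α)} (hV : On V F) : (cF V F).card = F.card := by
  apply card_image_of_injOn
  intro X hX Y hY h
  have h' : V \ X = V \ Y := h
  rw [← Finset.sdiff_sdiff_eq_self (hV X hX), h', Finset.sdiff_sdiff_eq_self (hV Y hY)]

theorem on_cF (V : Finset α) (F : Finset (Finset α)) : On V (cF V F) := by
  intro Y hY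
  obtain ⟨X, -, rfl⟩ := mem_cF.1 hY
  exact sdiff_subset

theorem ac_cF {V : Finset α} {F : Finset (Finset α)} (hV : On V F) (hF : AC F) :
    AC (cF V F) := by
  intro A hA B hB hne hsub
  obtain ⟨X, hX, rfl⟩ := mem_cF.1 (mem_coe.1 hA)
  obtain ⟨Y, hY, rfl⟩ := mem_cF.1 (mem_coe.1 hB)
  have h1 : Y ⊆ X := by
    intro y hy
    by_contra hyX
    have : y ∈ V \ Y := hsub (mem_sdiff.2 ⟨hV Y hY hy, hyX⟩)
    exact (mem_sdiff.1 this).2 hy
  exact hF hY hX (fun h => hne (by rw [h])) h1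

theorem sdiff_cF {V X Y : Finset α} (hX : X ⊆ V) : (V \ Y) \ (V \ X) = X \ Y := by
  ext z
  simp only [mem_sdiff, not_and, not_not]
  constructor
  · rintro ⟨⟨h1, h2⟩, h3⟩; exact ⟨h3 h1, h2⟩
  · rintro ⟨h1, h2⟩; exact ⟨⟨hX h1, h2⟩, fun _ => h1⟩

theorem ws_cF {V : Finset α} {F : Finset (Finset α)} {s : ℕ} (hV : On V F) (hW : Ws s F) :
    Ws s (cF V F) := by
  intro A hA B hB
  obtain ⟨X, hX, rfl⟩ := mem_cF.1 hA
  obtain ⟨Y, hY, rfl⟩ := mem_cF.1 hB
  rw [sdiff_cF (hV Y hY), sdiff_cF (hV X hX)]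
  exact (hW X hX Y hY).symm

theorem card_sdiff_of_on {V X : Finset α} (hX : X ⊆ V) : (V \ X).card = V.card - X.card :=
  card_sdiff_of_subset hX

/-- (SH) on at most `2 s` points (no condition `(W)_s`). -/
theorem shon_base {V : Finset α} {s : ℕ} (h2 : V.card ≤ 2 * s) : SHon V s := by
  intro F hV hW hF hs
  apply split_level hF hs
  set T := F.filter fun X => s < X.card with hT
  have hTV : On V T := fun X hX => hV X (mem_filter.1 hX).1
  have hTs : ∀ X ∈ T, s < X.card := fun X hX => (mem_filter.1 hX).2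
  have hTF : AC T := hF.mono (filter_subset _ _)
  rcases Nat.lt_or_ge V.card s with hlt | hge
  · have : T = ∅ := by
      rw [eq_empty_iff_forall_notMem]
      intro X hX
      have h1 := hTs X hX
      have h3 := card_le_card (hTV X hX)
      omega
    rw [this]; simp
  set L := V.powersetCard s \ sh s T with hL
  have hLV : On V L := fun X hX => (mem_powersetCard.1 (mem_sdiff.1 hX).1).1
  have hLs : ∀ X ∈ L, X.card = s := fun X hX => (mem_powersetCard.1 (mem_sdiff.1 hX).1).2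
  have h3 := push (V := V) (s := V.card - s) (by omega) (A := cF V T) (K := cF V L)
    (on_cF V T) (ac_cF hTV hTF) (by
      intro Y hY
      obtain ⟨X, hX, rfl⟩ := mem_cF.1 hY
      rw [card_sdiff_of_on (hTV X hX)]
      have := hTs X hX
      omega) (by
      intro Y hY
      obtain ⟨X, hX, rfl⟩ := mem_cF.1 hY
      rw [mem_powersetCard, card_sdiff_of_on (hLV X hX), hLs X hX]
      exact ⟨sdiff_subset, rfl⟩) (by
      intro A hA B hB hsub
      obtain ⟨X, hX, rfl⟩ := mem_cF.1 hA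
      obtain ⟨Y, hY, rfl⟩ := mem_cF.1 hB
      have hYX : Y ⊆ X := by
        intro y hy
        by_contra hyX
        have : y ∈ V \ Y := hsub (mem_sdiff.2 ⟨hLV Y hY hy, hyX⟩)
        exact (mem_sdiff.1 this).2 hy
      exact (mem_sdiff.1 hY).2 (mem_sh.2 ⟨X, hX, hYX, hLs Y hY⟩))
  rw [card_cF hTV, card_cF hLV, hL, card_sdiff_of_subset (sh_subset hTV), card_powersetCard,
    Nat.choose_symm hge] at h3
  have h4 := card_le_card (sh_subset (s := s) hTV)
  rw [card_powersetCard] at h4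
  omega

/-- `S ∪ {z}` inside a member -/
def Phi1 (s : ℕ) (z : α) (V : Finset α) (F : Finset (Finset α)) : Finset (Finset α) :=
  ((V.erase z).powersetCard s).filter fun S => ∃ P ∈ F, insert z S ⊆ P

/-- `S ∪ {z}` disjoint from a member -/
def Phi0 (s : ℕ) (z : α) (V : Finset α) (F : Finset (Finset α)) : Finset (Finset α) :=
  ((V.erase z).powersetCard s).filter fun S => ∃ Q ∈ F, Disjoint (insert z S) Q

/-- the link at `z` of the `(s+1)`-sets inside a member and disjoint from another one -/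
def Ez (s : ℕ) (z : α) (V : Finset α) (F : Finset (Finset α)) : Finset (Finset α) :=
  Phi1 s z V F ∩ Phi0 s z V F

theorem mem_Ez {s : ℕ} {z : α} {V : Finset α} {F : Finset (Finset α)} {S : Finset α} :
    S ∈ Ez s z V F ↔ (S ⊆ V.erase z ∧ S.card = s) ∧ (∃ P ∈ F, insert z S ⊆ P) ∧
      ∃ Q ∈ F, Disjoint (insert z S) Q := by
  simp only [Ez, Phi1, Phi0, mem_inter, mem_filter, mem_powersetCard]
  tauto

theorem On.F1 {V : Finset α} {F : Finset (Finset α)} (hV : On V F) (z : α) :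
    On (V.erase z) (SHK.F1 z F) := by
  intro Y hY
  obtain ⟨h1, h2⟩ := mem_F1.1 hY
  intro y hy
  exact mem_erase.2 ⟨fun h => h1 (h ▸ hy), hV _ h2 (mem_insert_of_mem hy)⟩

theorem On.F0 {V : Finset α} {F : Finset (Finset α)} (hV : On V F) (z : α) :
    On (V.erase z) (SHK.F0 z F) := by
  intro Y hY
  obtain ⟨h1, h2⟩ := mem_F0.1 hY
  intro y hy
  exact mem_erase.2 ⟨fun h => h2 (h ▸ hy), hV _ h1 hy⟩

theorem AC.F1 {F : Finset (Finset α)} (hF : AC F) (z : α) : AC (SHK.F1 z F) := by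
  intro A hA B hB hne hsub
  obtain ⟨h1, h2⟩ := mem_F1.1 (mem_coe.1 hA)
  obtain ⟨h3, h4⟩ := mem_F1.1 (mem_coe.1 hB)
  refine hF h2 h4 (fun h => hne ?_) (insert_subset_insert z hsub)
  rw [← erase_insert h1, h, erase_insert h3]

theorem AC.F0 {F : Finset (Finset α)} (hF : AC F) (z : α) : AC (SHK.F0 z F) :=
  hF.mono (filter_subset _ _)

theorem Ws.F1 {s : ℕ} {F : Finset (Finset α)} (hW : Ws s F) (z : α) : Ws s (SHK.F1 z F) := by
  intro A hA B hB
  obtain ⟨h1, h2⟩ := mem_F1.1 hA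
  obtain ⟨h3, h4⟩ := mem_F1.1 hB
  have h5 := hW _ h2 _ h4
  have e1 : (insert z A) \ (insert z B) = A \ B := by
    ext y; simp only [mem_sdiff, mem_insert]
    constructor
    · rintro ⟨rfl | h, h'⟩
      · exact absurd (Or.inl rfl) h'
      · exact ⟨h, fun hb => h' (Or.inr hb)⟩
    · rintro ⟨h, h'⟩
      refine ⟨Or.inr h, ?_⟩
      rintro (rfl | hb)
      · exact h1 h
      · exact h' hb
  have e2 : (insert z B) \ (insert z A) = B \ A := by
    ext y; simp only [mem_sdiff, mem_insert]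
    constructor
    · rintro ⟨rfl | h, h'⟩
      · exact absurd (Or.inl rfl) h'
      · exact ⟨h, fun hb => h' (Or.inr hb)⟩
    · rintro ⟨h, h'⟩
      refine ⟨Or.inr h, ?_⟩
      rintro (rfl | hb)
      · exact h3 h
      · exact h' hb
  rwa [e1, e2] at h5

theorem Ws.F0 {s : ℕ} {F : Finset (Finset α)} (hW : Ws s F) (z : α) : Ws s (SHK.F0 z F) :=
  hW.mono (filter_subset _ _)

/-- local LYM for `s`-sets on `m ≥ 2s-1` points: `|Φ| - |∂Φ| ≤ C(m,s) - C(m,s-1)` -/
theorem lym_defect {V : Finset α} {t : ℕ} (h2 : 2 * t + 1 ≤ V.card) {Φ : Finset (Finset α)}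
    (hΦ : Φ ⊆ V.powersetCard (t + 1)) :
    Φ.card + V.card.choose t ≤ (sh t Φ).card + V.card.choose (t + 1) := by
  set M := V.powersetCard t \ sh t Φ with hM
  have hΦV : On V Φ := fun X hX => (mem_powersetCard.1 (hΦ hX)).1
  have hMc : M.card = V.card.choose t - (sh t Φ).card := by
    rw [hM, card_sdiff_of_subset (sh_subset hΦV), card_powersetCard]
  have hMV : On V M := fun X hX => (mem_powersetCard.1 (mem_sdiff.1 hX).1).1
  have hMt : ∀ X ∈ M, X.card = t := fun X hX => (mem_powersetCard.1 (mem_sdiff.1 hX).1).2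
  have h3 := card_le_upsh hMV hMt h2
  have hdis : Disjoint (upsh V M) Φ := by
    rw [disjoint_left]
    intro Z hZ hZΦ
    obtain ⟨X, hX, z, -, -, rfl⟩ := mem_upsh.1 hZ
    exact (mem_sdiff.1 hX).2 (mem_sh.2 ⟨_, hZΦ, subset_insert z X, hMt X hX⟩)
  have h4 : (upsh V M ∪ Φ).card ≤ V.card.choose (t + 1) := by
    rw [← card_powersetCard]
    apply card_le_card
    apply union_subset _ hΦ
    intro Z hZ
    obtain ⟨X, hX, z, hz, hzX, rfl⟩ := mem_upsh.1 hZ
    rw [mem_powersetCard, card_insert_of_notMem hzX, hMt X hX]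
    exact ⟨insert_subset hz (hMV X hX), rfl⟩
  rw [card_union_of_disjoint hdis] at h4
  have h5 := card_le_card (sh_subset (s := t) hΦV)
  rw [card_powersetCard] at h5
  omega

/-- one half of the Z-lemma: an antichain `A` on `W`, `(W)_s`, (SH) on `W`, `Φ = sh s A`:
`|A| + |∂Φ| ≤ |Φ| + C(|W|, s-1)`. -/
theorem half {W : Finset α} {t : ℕ} (h2 : 2 * t ≤ W.card) (hSH : SHon W (t + 1))
    {A : Finset (Finset α)} (hA : AC A) (hW : Ws (t + 1) A) (hV : On W A) :
    A.card + (sh t (sh (t + 1) A)).card ≤ (sh (t + 1) A).card + W.card.choose t := by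
  set B := A.filter fun X => t + 1 ≤ X.card with hB
  set C := A.filter fun X => ¬ t + 1 ≤ X.card with hC
  have hcard : A.card = B.card + C.card := (card_filter_add_card_filter_not _).symm
  have hBs := hSH B (fun X hX => hV X (mem_filter.1 hX).1) (hW.mono (filter_subset _ _))
    (hA.mono (filter_subset _ _)) fun X hX => (mem_filter.1 hX).2
  have hsh : sh (t + 1) B = sh (t + 1) A := by
    apply Subset.antisymm (sh_mono (filter_subset _ _))
    intro S hS
    obtain ⟨X, hX, hSX, hSc⟩ := mem_sh.1 hS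
    refine mem_sh.2 ⟨X, mem_filter.2 ⟨hX, ?_⟩, hSX, hSc⟩
    rw [← hSc]; exact card_le_card hSX
  rw [hsh] at hBs
  have hK : sh t (sh (t + 1) A) ⊆ W.powersetCard t := by
    apply sh_subset
    intro S hS
    obtain ⟨X, hX, hSX, -⟩ := mem_sh.1 hS
    exact hSX.trans (hV X hX)
  have h3 := push h2 (A := C) (K := sh t (sh (t + 1) A))
    (fun X hX => hV X (mem_filter.1 hX).1) (hA.mono (filter_subset _ _))
    (fun X hX => by have := (mem_filter.1 hX).2; omega) hK (by
      intro X hX T hT hXT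
      obtain ⟨S, hS, hTS, -⟩ := mem_sh.1 hT
      obtain ⟨Y, hY, hSY, hSc⟩ := mem_sh.1 hS
      have hXc := (mem_filter.1 hX).2
      have hYc : t + 1 ≤ Y.card := by rw [← hSc]; exact card_le_card hSY
      have hne : X ≠ Y := by rintro rfl; exact hXc hYc
      exact hA (mem_filter.1 hX).1 hY hne (hXT.trans (hTS.trans hSY)))
  omega

theorem sh_F1_eq {s : ℕ} {z : α} {V : Finset α} {F : Finset (Finset α)} (hV : On V F) :
    sh s (F1 z F) = Phi1 s z V F := by
  ext S
  simp only [mem_sh, Phi1, mem_filter, mem_powersetCard]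
  constructor
  · rintro ⟨Y, hY, hSY, hSc⟩
    obtain ⟨h1, h2⟩ := mem_F1.1 hY
    exact ⟨⟨hSY.trans (hV.F1 z Y hY), hSc⟩, insert z Y, h2, insert_subset_insert z hSY⟩
  · rintro ⟨⟨h1, h2⟩, P, hP, h3⟩
    have hz : z ∈ P := h3 (mem_insert_self z S)
    refine ⟨P.erase z, mem_F1.2 ⟨notMem_erase z P, by rwa [insert_erase hz]⟩, ?_, h2⟩
    intro y hy
    exact mem_erase.2 ⟨(mem_erase.1 (h1 hy)).1, h3 (mem_insert_of_mem hy)⟩

theorem sh_cF0_eq {s : ℕ} {z : α} {V : Finset α} {F : Finset (Finset α)} :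
    sh s (cF (V.erase z) (F0 z F)) = Phi0 s z V F := by
  ext S
  simp only [mem_sh, Phi0, mem_filter, mem_powersetCard]
  constructor
  · rintro ⟨Y, hY, hSY, hSc⟩
    obtain ⟨Q, hQ, rfl⟩ := mem_cF.1 hY
    obtain ⟨h1, h2⟩ := mem_F0.1 hQ
    refine ⟨⟨hSY.trans sdiff_subset, hSc⟩, Q, h1, ?_⟩
    rw [disjoint_left]
    intro y hy hyQ
    rcases mem_insert.1 hy with rfl | hy
    · exact h2 hyQ
    · exact (mem_sdiff.1 (hSY hy)).2 hyQ
  · rintro ⟨⟨h1, h2⟩, Q, hQ, h3⟩
    rw [disjoint_left] at h3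
    have hz : z ∉ Q := h3 (mem_insert_self z S)
    refine ⟨_, mem_cF.2 ⟨Q, mem_F0.2 ⟨hQ, hz⟩, rfl⟩, ?_, h2⟩
    intro y hy
    exact mem_sdiff.2 ⟨h1 hy, h3 (mem_insert_of_mem hy)⟩

/-- Z-LEMMA WITH ERROR TERM (helper52), `s = t+1`. -/
theorem zlemma {V : Finset α} {t : ℕ} (h2 : 2 * (t + 1) ≤ V.card) {z : α} (hz : z ∈ V)
    (hSH : SHon (V.erase z) (t + 1)) {F : Finset (Finset α)} (hV : On V F) (hF : AC F)
    (hW : Ws (t + 1) F) :
    F.card + (sh t (Ez (t + 1) z V F)).card ≤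
      V.card.choose (t + 1) + (Ez (t + 1) z V F).card := by
  have hN : (V.erase z).card + 1 = V.card := card_erase_add_one hz
  set W := V.erase z with hWdef
  set Φ1 := Phi1 (t + 1) z V F with hΦ1
  set Φ0 := Phi0 (t + 1) z V F with hΦ0
  have h1 := half (W := W) (t := t) (by omega) hSH (hF.F1 z) (hW.F1 z) (hV.F1 z)
  rw [sh_F1_eq hV, ← hΦ1] at h1
  have h0 := half (W := W) (t := t) (by omega) hSH (A := cF W (F0 z F))
    (ac_cF (hV.F0 z) (hF.F0 z)) (ws_cF (hV.F0 z) (hW.F0 z)) (on_cF _ _)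
  rw [card_cF (hV.F0 z), hWdef, sh_cF0_eq, ← hWdef, ← hΦ0] at h0
  have hsub1 : Φ1 ⊆ W.powersetCard (t + 1) := filter_subset _ _
  have hsub0 : Φ0 ⊆ W.powersetCard (t + 1) := filter_subset _ _
  have h3 := lym_defect (V := W) (t := t) (by omega) (union_subset hsub1 hsub0)
  have h4 : (Φ1 ∪ Φ0).card + (Φ1 ∩ Φ0).card = Φ1.card + Φ0.card := card_union_add_card_inter _ _
  have h5 : sh t (Φ1 ∪ Φ0) = sh t Φ1 ∪ sh t Φ0 := by
    rw [sh, union_biUnion]; rfl
  have h6 : sh t (Φ1 ∩ Φ0) ⊆ sh t Φ1 ∩ sh t Φ0 :=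
    subset_inter (sh_mono inter_subset_left) (sh_mono inter_subset_right)
  have h7 := card_le_card h6
  have h8 : (sh t Φ1 ∪ sh t Φ0).card + (sh t Φ1 ∩ sh t Φ0).card =
      (sh t Φ1).card + (sh t Φ0).card := card_union_add_card_inter _ _
  have h9 := card_F1_add_card_F0 (F := F) z
  have h10 : V.card.choose (t + 1) = W.card.choose t + W.card.choose (t + 1) := by
    rw [← hN, Nat.choose_succ_succ]
  rw [h5] at h3
  have h11 : (Ez (t + 1) z V F) = Φ1 ∩ Φ0 := rfl
  rw [h11]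
  omega

/-- Z-LEMMA: if `z` is in no long difference (in the sense `E_z = ∅`) then `|F| ≤ C(N,s)`. -/
theorem zlemma_zero {V : Finset α} {t : ℕ} (h2 : 2 * (t + 1) ≤ V.card) {z : α} (hz : z ∈ V)
    (hSH : SHon (V.erase z) (t + 1)) {F : Finset (Finset α)} (hV : On V F) (hF : AC F)
    (hW : Ws (t + 1) F) (hLD : z ∉ LD (t + 1) F) : F.card ≤ V.card.choose (t + 1) := by
  have h := zlemma h2 hz hSH hV hF hW
  have hE : Ez (t + 1) z V F = ∅ := by
    rw [eq_empty_iff_forall_notMem]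
    intro S hS
    obtain ⟨⟨h1, h3⟩, ⟨P, hP, hSP⟩, Q, hQ, hd⟩ := mem_Ez.1 hS
    rw [disjoint_left] at hd
    apply hLD
    have hzS : z ∉ S := fun hzS => (mem_erase.1 (h1 hzS)).1 rfl
    have hsub : insert z S ⊆ P \ Q := fun y hy => mem_sdiff.2 ⟨hSP hy, hd hy⟩
    refine mem_LD.2 ⟨P, hP, Q, hQ, ?_, hsub (mem_insert_self z S)⟩
    have := card_le_card hsub
    rw [card_insert_of_notMem hzS, h3] at this
    omega
  rw [hE] at h
  simp at h
  omega

/-- (ZE) for violating families gives (SH) and TOP. -/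
theorem shon_of_ze (s : ℕ)
    (H : ∀ (V : Finset α) (F : Finset (Finset α)), 2 * s + 1 ≤ V.card → On V F → AC F → Ws s F →
      V.card.choose s < F.card → ∃ z ∈ V, (Ez s z V F).card ≤ (sh (s - 1) (Ez s z V F)).card) :
    ∀ V : Finset α, SHon V s := by
  rcases Nat.eq_zero_or_pos s with rfl | hs
  · intro V F hV hW hF _
    rcases F.eq_empty_or_nonempty with rfl | ⟨X, hX⟩
    · simp
    · refine (ws_zero hW hF).trans ?_
      rw [Nat.succ_le_iff, card_pos]
      exact ⟨∅, mem_sh.2 ⟨X, hX, empty_subset _, rfl⟩⟩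
  obtain ⟨t, rfl⟩ : ∃ t, s = t + 1 := ⟨s - 1, by omega⟩
  intro V
  induction hm : V.card using Nat.strong_induction_on generalizing V with
  | _ m ih =>
    subst hm
    rcases Nat.lt_or_ge (2 * (t + 1)) V.card with hlt | hge
    · apply sh_of_top
      intro F hV hW hF
      by_contra hv
      push Not at hv
      obtain ⟨z, hz, hE⟩ := H V F hlt hV hF hW hv
      have h1 := zlemma (by omega) hz (ih _ (card_erase_lt_of_mem hz) (V.erase z) rfl) hV hF hW
      simp only [Nat.add_sub_cancel] at hE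
      omega
    · exact shon_base hge

/-- (ZE) on `Fin n` gives the frozen statement S12353. -/
theorem frozen_of_ze
    (H : ∀ (n s : ℕ) (V : Finset (Fin n)) (F : Finset (Finset (Fin n))), 2 * s + 1 ≤ V.card →
      On V F → AC F → Ws s F → V.card.choose s < F.card →
      ∃ z ∈ V, (Ez s z V F).card ≤ (sh (s - 1) (Ez s z V F)).card) :
    ∀ n k : ℕ, 1 ≤ k → k ≤ n →
      ∀ F : Finset (Finset (Fin n)),
        IsAntichain (· ⊆ ·) (F : Set (Finset (Fin n))) →
        (∀ A ∈ F, ∀ B ∈ F, (symmDiff A B).card ≤ n - k) →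
        F.card ≤ n.choose ((n + k + 1) / 2) := by
  apply frozen_of_sh
  intro n s F hW hF hs
  exact shon_of_ze s (H n s) univ F (fun X _ => subset_univ X) hW hF hs

end SHK
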